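import Pool.Agent.W342.RCD.K12

/-! K11: area inequality for homogeneous maps -/

set_option autoImplicit false

open MeasureTheory Set Filter Topology Metric Asymptotics
open scoped ENNReal NNReal

namespace Pool.Agent.W342.RCD

open Pool.Agent.W553.RCD

/-- scaling of the two factors -/
noncomputable def Sc (r s : ℝ) (hr : r ≠ 0) (hs : s ≠ 0) : (E3 × E3) ≃L[ℝ] (E3 × E3) :=
  ((LinearEquiv.smulOfNeZero ℝ E3 r hr).prodCongr
    (LinearEquiv.smulOfNeZero ℝ E3 s hs)).toContinuousLinearEquiv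

theorem Sc_apply (r s : ℝ) (hr : r ≠ 0) (hs : s ≠ 0) (y : E3 × E3) :
    Sc r s hr hs y = (r • y.1, s • y.2) := rfl

theorem Sc_symm_apply (r s : ℝ) (hr : r ≠ 0) (hs : s ≠ 0) (y : E3 × E3) :
    (Sc r s hr hs).symm y = (r⁻¹ • y.1, s⁻¹ • y.2) := by
  rw [ContinuousLinearEquiv.symm_apply_eq, Sc_apply]
  ext1
  · simp [smul_smul, hr]
  · simp [smul_smul, hs]

theorem continuousAt_nrm {y : E3} (hy : y ≠ 0) : ContinuousAt nrm y := by
  have h1 : nrm =ᶠ[𝓝 y] fun x => ‖x‖⁻¹ • x := by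
    filter_upwards [isOpen_ne.mem_nhds hy] with x hx
    exact if_neg hx
  refine ContinuousAt.congr ?_ h1.symm
  exact (continuousAt_id.norm.inv₀ (norm_ne_zero_iff.2 hy)).smul continuousAt_id

theorem continuousAt_prj {y : E3 × E3} (h1 : y.1 ≠ 0) (h2 : y.2 ≠ 0) : ContinuousAt prj y := by
  rw [M.isEmbedding_toProd.isInducing.continuousAt_iff]
  exact ((continuousAt_nrm h1).comp continuousAt_fst).prodMk
    ((continuousAt_nrm h2).comp continuousAt_snd)

theorem toProd_ne (z : M) : z.toProd.1 ≠ 0 ∧ z.toProd.2 ≠ 0 := by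
  constructor
  · intro h0
    have := z.ha
    rw [show z.a = 0 from h0] at this
    simp at this
  · intro h0
    have := z.hb
    rw [show z.b = 0 from h0] at this
    simp at this

theorem scale_prj {y : E3 × E3} (h1 : y.1 ≠ 0) (h2 : y.2 ≠ 0) :
    (‖y.1‖ • (prj y).toProd.1, ‖y.2‖ • (prj y).toProd.2) = y := by
  have hr1 : 0 < ‖y.1‖ := norm_pos_iff.2 h1
  have hr2 : 0 < ‖y.2‖ := norm_pos_iff.2 h2
  have a1 : (prj y).toProd.1 = ‖y.1‖⁻¹ • y.1 := by
    show nrm y.1 = _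
    unfold nrm
    rw [if_neg h1]
  have a2 : (prj y).toProd.2 = ‖y.2‖⁻¹ • y.2 := by
    show nrm y.2 = _
    unfold nrm
    rw [if_neg h2]
  rw [a1, a2, smul_smul, smul_smul, mul_inv_cancel₀ hr1.ne', mul_inv_cancel₀ hr2.ne', one_smul,
    one_smul]

theorem S_K11_holds : S_K11 := by
  intro F K hK hhom hnorm hdiff
  set φ : M → M := fun z => prj (F z.toProd) with hφ
  have hFne : ∀ z : M, (F z.toProd).1 ≠ 0 ∧ (F z.toProd).2 ≠ 0 := by
    intro z
    constructor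
    · rw [← norm_ne_zero_iff, (hnorm _).1]; exact norm_ne_zero_iff.2 (toProd_ne z).1
    · rw [← norm_ne_zero_iff, (hnorm _).2]; exact norm_ne_zero_iff.2 (toProd_ne z).2
  have hφc : ContinuousOn φ K := by
    intro z hz
    refine ContinuousAt.continuousWithinAt ?_
    have h1 : ContinuousAt (fun z : M => F z.toProd) z :=
      (hdiff z hz).continuousAt.comp M.continuous_toProd.continuousAt
    exact ContinuousAt.comp (g := prj) (f := fun z : M => F z.toProd)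
      (continuousAt_prj (hFne z).1 (hFne z).2) h1
  have hKim : IsCompact (φ '' K) := hK.image_of_continuousOn hφc
  have hφP : ∀ z : M, (φ z).toProd = F z.toProd := by
    intro z
    have e1 : nrm (F z.toProd).1 = (F z.toProd).1 :=
      nrm_of_norm_one (by rw [(hnorm _).1]; exact z.ha)
    have e2 : nrm (F z.toProd).2 = (F z.toProd).2 :=
      nrm_of_norm_one (by rw [(hnorm _).2]; exact z.hb)
    exact Prod.ext e1 e2
  set Kt : Set (E3 × E3) := cone K ∩ ball (0 : E3) 1 ×ˢ ball (0 : E3) 1 with hKt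
  have hKtm : MeasurableSet Kt :=
    (measurable_cone hK.isClosed.measurableSet).inter (measurableSet_ball.prod measurableSet_ball)
  -- the image
  rw [m0_apply hKim.isClosed.measurableSet]
  have hsub : volume (prj ⁻¹' (φ '' K) ∩ ball (0 : E3) 1 ×ˢ ball (0 : E3) 1) ≤
      volume (F '' Kt) := by
    refine measure_mono_ae ?_
    filter_upwards [ae_ne_zero] with y hy0 hy
    obtain ⟨⟨z, hz, hzy⟩, hyB⟩ := hy
    have hr1 : 0 < ‖y.1‖ := norm_pos_iff.2 hy0.1
    have hr2 : 0 < ‖y.2‖ := norm_pos_iff.2 hy0.2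
    refine ⟨(‖y.1‖ • z.a, ‖y.2‖ • z.b), ⟨⟨?_, ?_, ?_⟩, ?_⟩, ?_⟩
    · exact smul_ne_zero hr1.ne' (toProd_ne z).1
    · exact smul_ne_zero hr2.ne' (toProd_ne z).2
    · have : prj (‖y.1‖ • z.a, ‖y.2‖ • z.b) = z :=
        M.ext ((nrm_smul hr1 _).trans (nrm_of_norm_one z.ha))
          ((nrm_smul hr2 _).trans (nrm_of_norm_one z.hb))
      rw [this]
      exact hz
    · simp only [mem_prod, mem_ball_zero_iff] at hyB ⊢
      rw [norm_smul, norm_smul, z.ha, z.hb, norm_norm, norm_norm, mul_one, mul_one]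
      exact hyB
    · have e := hhom z.toProd ‖y.1‖ ‖y.2‖ hr1 hr2
      have e' : F (‖y.1‖ • z.a, ‖y.2‖ • z.b) = (‖y.1‖ • (F z.toProd).1, ‖y.2‖ • (F z.toProd).2) := e
      rw [e', ← hφP z, hzy]
      exact scale_prj hy0.1 hy0.2
  refine hsub.trans ?_
  -- derivative on the cone
  let f' : E3 × E3 → (E3 × E3 →L[ℝ] E3 × E3) := fun y =>
    if h : y.1 ≠ 0 ∧ y.2 ≠ 0 then
      ((Sc ‖y.1‖ ‖y.2‖ (norm_ne_zero_iff.2 h.1) (norm_ne_zero_iff.2 h.2) :
        E3 × E3 →L[ℝ] E3 × E3).comp (fderiv ℝ F (prj y).toProd)).comp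
      ((Sc ‖y.1‖ ‖y.2‖ (norm_ne_zero_iff.2 h.1) (norm_ne_zero_iff.2 h.2)).symm :
        E3 × E3 →L[ℝ] E3 × E3)
    else 0
  have hder : ∀ y ∈ Kt, HasFDerivWithinAt F (f' y) Kt y := by
    intro y hy
    have h : y.1 ≠ 0 ∧ y.2 ≠ 0 := ⟨hy.1.1, hy.1.2.1⟩
    have hr1 : 0 < ‖y.1‖ := norm_pos_iff.2 h.1
    have hr2 : 0 < ‖y.2‖ := norm_pos_iff.2 h.2
    have e1 : f' y = ((Sc ‖y.1‖ ‖y.2‖ hr1.ne' hr2.ne' :
        E3 × E3 →L[ℝ] E3 × E3).comp (fderiv ℝ F (prj y).toProd)).comp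
      ((Sc ‖y.1‖ ‖y.2‖ hr1.ne' hr2.ne').symm : E3 × E3 →L[ℝ] E3 × E3) := dif_pos h
    rw [e1]
    refine HasFDerivAt.hasFDerivWithinAt ?_
    set S := Sc ‖y.1‖ ‖y.2‖ hr1.ne' hr2.ne' with hS
    have e2 : F = fun w => S (F (S.symm w)) := by
      funext w
      rw [hS, Sc_apply, ← hhom _ _ _ hr1 hr2, ← Sc_apply _ _ hr1.ne' hr2.ne',
        ContinuousLinearEquiv.apply_symm_apply]
    have e3 : S.symm y = (prj y).toProd := by
      rw [ContinuousLinearEquiv.symm_apply_eq, hS, Sc_apply]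
      exact (scale_prj h.1 h.2).symm
    have h4 : HasFDerivAt F (fderiv ℝ F (prj y).toProd) (S.symm y) := by
      rw [e3]
      exact (hdiff _ hy.1.2.2).hasFDerivAt
    have h5 : HasFDerivAt (fun w => F (S.symm w))
        ((fderiv ℝ F (prj y).toProd).comp (S.symm : E3 × E3 →L[ℝ] E3 × E3)) y :=
      h4.comp y S.symm.hasFDerivAt
    have h6 : HasFDerivAt (fun w => S (F (S.symm w)))
        ((S : E3 × E3 →L[ℝ] E3 × E3).comp ((fderiv ℝ F (prj y).toProd).comp
          (S.symm : E3 × E3 →L[ℝ] E3 × E3))) y := S.hasFDerivAt.comp y h5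
    rw [← e2] at h6
    exact h6
  refine (addHaar_image_le_lintegral_abs_det_fderiv volume hKtm hder).trans ?_
  -- the integrals
  have hdet : ∀ y ∈ Kt, (f' y).det = (fderiv ℝ F (prj y).toProd).det := by
    intro y hy
    have h : y.1 ≠ 0 ∧ y.2 ≠ 0 := ⟨hy.1.1, hy.1.2.1⟩
    have e1 : f' y = ((Sc ‖y.1‖ ‖y.2‖ (norm_ne_zero_iff.2 h.1) (norm_ne_zero_iff.2 h.2) :
        E3 × E3 →L[ℝ] E3 × E3).comp (fderiv ℝ F (prj y).toProd)).comp
      ((Sc ‖y.1‖ ‖y.2‖ (norm_ne_zero_iff.2 h.1) (norm_ne_zero_iff.2 h.2)).symm :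
        E3 × E3 →L[ℝ] E3 × E3) := dif_pos h
    rw [e1]
    exact LinearMap.det_conj ((fderiv ℝ F (prj y).toProd : E3 × E3 →ₗ[ℝ] E3 × E3))
      (Sc ‖y.1‖ ‖y.2‖ (norm_ne_zero_iff.2 h.1) (norm_ne_zero_iff.2 h.2)).toLinearEquiv
  have hg : Measurable fun z : M => ENNReal.ofReal |(fderiv ℝ F z.toProd).det| := by
    have h1 : Measurable fun y : E3 × E3 => (fderiv ℝ F y).det :=
      ContinuousLinearMap.continuous_det.measurable.comp (measurable_fderiv ℝ F)
    exact (ENNReal.measurable_ofReal.comp (measurable_abs.comp h1)).comp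
      measurableEmbedding_toProd.measurable
  rw [setLIntegral_congr_fun hKtm (g := fun y =>
    ENNReal.ofReal |(fderiv ℝ F (prj y).toProd).det|) (fun y hy => by
      show ENNReal.ofReal |(f' y).det| = _
      rw [hdet y hy])]
  unfold m0
  rw [setLIntegral_map hK.isClosed.measurableSet hg measurable_prj,
    Measure.restrict_restrict (measurable_prj hK.isClosed.measurableSet)]
  refine lintegral_mono_set ?_
  exact fun y hy => ⟨hy.1.2.2, hy.2⟩

end Pool.Agent.W342.RCD
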