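import Pool.Agent.W342.RCD.K6C

/-! Lipschitz functions on the half product of spheres have a gradient almost everywhere -/

set_option autoImplicit false

open MeasureTheory Set Filter Topology Metric Asymptotics
open scoped ENNReal NNReal

namespace Pool.Agent.W342.RCD

open Pool.Agent.W553.RCD

instance vol_haar : (volume : Measure (E3 × E3)).IsAddHaarMeasure := by
  rw [Measure.volume_eq_prod]
  infer_instance

theorem norm_nrm_sub {x y : E3} (hx : x ≠ 0) (hy : y ≠ 0) :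
    ‖nrm x - nrm y‖ ≤ 2 * ‖x - y‖ / ‖x‖ := by
  have hx' : 0 < ‖x‖ := norm_pos_iff.2 hx
  have hy' : 0 < ‖y‖ := norm_pos_iff.2 hy
  unfold nrm
  rw [if_neg hx, if_neg hy]
  have e : ‖x‖⁻¹ • x - ‖y‖⁻¹ • y = ‖x‖⁻¹ • (x - y) + (‖x‖⁻¹ - ‖y‖⁻¹) • y := by
    rw [smul_sub, sub_smul]; abel
  rw [e]
  refine (norm_add_le _ _).trans ?_
  rw [norm_smul, norm_smul, norm_inv, norm_norm, Real.norm_eq_abs]
  have e2 : |‖x‖⁻¹ - ‖y‖⁻¹| * ‖y‖ = |‖y‖ - ‖x‖| / ‖x‖ := by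
    have : ‖x‖⁻¹ - ‖y‖⁻¹ = (‖y‖ - ‖x‖) / (‖x‖ * ‖y‖) := by field_simp
    rw [this, abs_div, abs_of_pos (mul_pos hx' hy')]
    field_simp
  rw [e2]
  have e3 : |‖y‖ - ‖x‖| ≤ ‖x - y‖ := by
    rw [abs_sub_comm]; exact abs_norm_sub_norm_le x y
  rw [inv_mul_eq_div, ← add_div]
  refine div_le_div_of_nonneg_right ?_ hx'.le
  linarith

theorem prj_toProd (p : M) : prj p.toProd = p :=
  M.ext (nrm_of_norm_one p.ha) (nrm_of_norm_one p.hb)

/-- the homogeneous extension -/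
noncomputable def hext (F : M → ℝ) (y : E3 × E3) : ℝ := F (prj y)

theorem hext_lip {F : M → ℝ} {L : ℝ≥0} (hF : LipschitzWith L F) {δ : ℝ≥0} (hδ : 0 < δ) :
    LipschitzOnWith (L * (2 * (2 / δ))) (hext F) {y | (δ : ℝ) < ‖y.1‖ ∧ (δ : ℝ) < ‖y.2‖} := by
  refine LipschitzOnWith.of_dist_le_mul fun x hx y hy => ?_
  have hδ' : (0 : ℝ) < δ := hδ
  refine (hF.dist_le_mul _ _).trans ?_
  have h1 : dist (prj x) (prj y) ≤ 2 * ‖(prj x).toProd - (prj y).toProd‖ := M.dist_le _ _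
  have key : ∀ a b : E3, (δ : ℝ) < ‖a‖ → (δ : ℝ) < ‖b‖ → ‖nrm a - nrm b‖ ≤ 2 / δ * ‖a - b‖ := by
    intro a b ha hb
    have ha0 : a ≠ 0 := norm_pos_iff.1 (hδ'.trans ha)
    have hb0 : b ≠ 0 := norm_pos_iff.1 (hδ'.trans hb)
    refine (norm_nrm_sub ha0 hb0).trans ?_
    rw [div_le_iff₀ (norm_pos_iff.2 ha0)]
    have : 2 / (δ : ℝ) * ‖a - b‖ * ‖a‖ = 2 * ‖a - b‖ * (‖a‖ / δ) := by ring
    rw [this]
    have h2 : 1 ≤ ‖a‖ / (δ : ℝ) := by rw [le_div_iff₀ hδ']; linarith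
    nlinarith [norm_nonneg (a - b)]
  have h2 : ‖(prj x).toProd - (prj y).toProd‖ ≤ 2 / δ * dist x y := by
    rw [Prod.norm_def]
    refine max_le ?_ ?_
    · refine (key x.1 y.1 hx.1 hy.1).trans ?_
      gcongr
      rw [dist_eq_norm]
      exact norm_fst_le (x - y)
    · refine (key x.2 y.2 hx.2 hy.2).trans ?_
      gcongr
      rw [dist_eq_norm]
      exact norm_snd_le (x - y)
  have h3 : dist (prj x) (prj y) ≤ 2 * (2 / δ * dist x y) := h1.trans (by gcongr)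
  calc (L : ℝ) * dist (prj x) (prj y) ≤ L * (2 * (2 / δ * dist x y)) := by gcongr
    _ = _ := by push_cast; ring

theorem hext_ae_diff {F : M → ℝ} {L : ℝ≥0} (hF : LipschitzWith L F) :
    ∀ᵐ y : E3 × E3, y.1 ≠ 0 ∧ y.2 ≠ 0 ∧ DifferentiableAt ℝ (hext F) y := by
  have h : ∀ n : ℕ, ∀ᵐ y : E3 × E3, y ∈ {y : E3 × E3 | ((1 / ((n : ℝ≥0) + 1) : ℝ≥0) : ℝ) < ‖y.1‖ ∧
      ((1 / ((n : ℝ≥0) + 1) : ℝ≥0) : ℝ) < ‖y.2‖} → DifferentiableWithinAt ℝ (hext F)
      {y : E3 × E3 | ((1 / ((n : ℝ≥0) + 1) : ℝ≥0) : ℝ) < ‖y.1‖ ∧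
      ((1 / ((n : ℝ≥0) + 1) : ℝ≥0) : ℝ) < ‖y.2‖} y := fun n =>
    (hext_lip hF (δ := 1 / ((n : ℝ≥0) + 1)) (by positivity)).ae_differentiableWithinAt_of_mem
  filter_upwards [ae_all_iff.2 h, ae_ne_zero] with y hy hne
  refine ⟨hne.1, hne.2, ?_⟩
  obtain ⟨n, hn⟩ := exists_nat_one_div_lt (lt_min (norm_pos_iff.2 hne.1) (norm_pos_iff.2 hne.2))
  have hmem : y ∈ {y : E3 × E3 | ((1 / ((n : ℝ≥0) + 1) : ℝ≥0) : ℝ) < ‖y.1‖ ∧
      ((1 / ((n : ℝ≥0) + 1) : ℝ≥0) : ℝ) < ‖y.2‖} := by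
    constructor
    · push_cast
      exact hn.trans_le (min_le_left _ _)
    · push_cast
      exact hn.trans_le (min_le_right _ _)
  refine (hy n hmem).differentiableAt (IsOpen.mem_nhds ?_ hmem)
  exact (isOpen_lt continuous_const continuous_fst.norm).inter
    (isOpen_lt continuous_const continuous_snd.norm)

theorem diff_transfer {F : M → ℝ} {y : E3 × E3} (h1 : y.1 ≠ 0) (h2 : y.2 ≠ 0)
    (h : DifferentiableAt ℝ (hext F) y) : DifferentiableAt ℝ (hext F) (prj y).toProd := by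
  have hr1 : 0 < ‖y.1‖ := norm_pos_iff.2 h1
  have hr2 : 0 < ‖y.2‖ := norm_pos_iff.2 h2
  have e1 : (fun w : E3 × E3 => hext F (‖y.1‖ • w.1, ‖y.2‖ • w.2)) = hext F := by
    funext w
    unfold hext prj
    simp only [nrm_smul hr1, nrm_smul hr2]
  have e2 : (‖y.1‖ • (prj y).toProd.1, ‖y.2‖ • (prj y).toProd.2) = y := by
    have a1 : (prj y).toProd.1 = ‖y.1‖⁻¹ • y.1 := by
      show nrm y.1 = _
      unfold nrm
      rw [if_neg h1]
    have a2 : (prj y).toProd.2 = ‖y.2‖⁻¹ • y.2 := by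
      show nrm y.2 = _
      unfold nrm
      rw [if_neg h2]
    rw [a1, a2, smul_smul, smul_smul, mul_inv_cancel₀ hr1.ne', mul_inv_cancel₀ hr2.ne', one_smul,
      one_smul]
  rw [← e1]
  have h3 : DifferentiableAt ℝ (fun w : E3 × E3 => (‖y.1‖ • w.1, ‖y.2‖ • w.2)) (prj y).toProd := by
    fun_prop
  have h4 : DifferentiableAt ℝ (hext F)
      ((fun w : E3 × E3 => (‖y.1‖ • w.1, ‖y.2‖ • w.2)) (prj y).toProd) := by
    show DifferentiableAt ℝ (hext F) (‖y.1‖ • (prj y).toProd.1, ‖y.2‖ • (prj y).toProd.2)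
    rw [e2]
    exact h
  exact DifferentiableAt.comp (g := hext F)
    (f := fun w : E3 × E3 => (‖y.1‖ • w.1, ‖y.2‖ • w.2)) (prj y).toProd h4 h3

theorem m0_ae_diff {F : M → ℝ} {L : ℝ≥0} (hF : LipschitzWith L F) :
    ∀ᵐ z ∂m0, DifferentiableAt ℝ (hext F) z.toProd := by
  have hmeas : MeasurableSet {z : M | DifferentiableAt ℝ (hext F) z.toProd} :=
    measurableEmbedding_toProd.measurable (measurableSet_of_differentiableAt ℝ (hext F))
  unfold m0
  rw [ae_map_iff measurable_prj.aemeasurable hmeas]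
  refine ae_restrict_of_ae ?_
  filter_upwards [hext_ae_diff hF] with y hy
  exact diff_transfer hy.1 hy.2.1 hy.2.2

theorem m0_ae_pos : ∀ᵐ z ∂m0, z.a 2 ≠ 0 := by
  have hmeas : MeasurableSet {z : M | z.a 2 ≠ 0} := by
    have hc : Continuous fun z : M => z.a 2 := by
      have := M.continuous_a
      fun_prop
    exact (isOpen_ne_fun hc continuous_const).measurableSet
  unfold m0
  rw [ae_map_iff measurable_prj.aemeasurable hmeas]
  refine ae_restrict_of_ae ?_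
  let l : (E3 × E3) →ₗ[ℝ] ℝ := (EuclideanSpace.proj (𝕜 := ℝ) (2 : Fin 3)).toLinearMap ∘ₗ
    LinearMap.fst ℝ E3 E3
  have hl : ∀ y, l y = y.1 2 := fun y => rfl
  have hne : LinearMap.ker l ≠ ⊤ := by
    intro h
    have h1 : (EuclideanSpace.single 2 1, (0 : E3)) ∈ LinearMap.ker l := by rw [h]; trivial
    rw [LinearMap.mem_ker, hl] at h1
    simp at h1
  have h0 := Measure.addHaar_submodule (volume : Measure (E3 × E3)) (LinearMap.ker l) hne
  have h1 : ∀ᵐ y : E3 × E3, y ∉ (LinearMap.ker l : Set (E3 × E3)) :=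
    measure_eq_zero_iff_ae_notMem.1 h0
  filter_upwards [h1, ae_ne_zero] with y hy hy0
  have hy' : y.1 2 ≠ 0 := fun h => hy (by rw [SetLike.mem_coe, LinearMap.mem_ker, hl]; exact h)
  show (nrm y.1) 2 ≠ 0
  unfold nrm
  rw [if_neg hy0.1]
  have : (‖y.1‖⁻¹ • y.1) 2 = ‖y.1‖⁻¹ * y.1 2 := rfl
  rw [this]
  exact mul_ne_zero (inv_ne_zero (norm_ne_zero_iff.2 hy0.1)) hy'

theorem ae_XX {P : M → Prop} (hK : S_K5) (h : ∀ᵐ z ∂m0, P z) :
    ∀ᵐ z : XX ∂(μH[((4 : ℕ) : ℝ)]), P z.1 := by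
  obtain ⟨c, -, -, hc⟩ := hK
  have h1 : ∀ᵐ z ∂(μH[((4 : ℕ) : ℝ)] : Measure M), P z := by
    rw [hc]
    exact Measure.ae_smul_measure h c
  rw [ae_iff] at h1 ⊢
  rw [← (isometry_subtype_coe (s := {p : M | 0 ≤ p.a 2})).hausdorffMeasure_image
    (Or.inl (by positivity))]
  refine measure_mono_null ?_ h1
  rintro _ ⟨z, hz, rfl⟩
  exact hz

theorem extend_XX {f : XX → ℝ} {L : ℝ≥0} (hf : LipschitzWith L f) :
    ∃ F : M → ℝ, LipschitzWith L F ∧ ∀ z : XX, F z.1 = f z := by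
  classical
  let f' : M → ℝ := fun p => if h : 0 ≤ p.a 2 then f ⟨p, h⟩ else 0
  have h1 : LipschitzOnWith L f' {p : M | 0 ≤ p.a 2} := by
    refine LipschitzOnWith.of_dist_le_mul fun x hx y hy => ?_
    have e1 : f' x = f ⟨x, hx⟩ := dif_pos hx
    have e2 : f' y = f ⟨y, hy⟩ := dif_pos hy
    rw [e1, e2]
    exact hf.dist_le_mul _ _
  obtain ⟨F, hF1, hF2⟩ := h1.extend_real
  refine ⟨F, hF1, fun z => ?_⟩
  rw [← hF2 z.2]
  exact dif_pos z.2

theorem grad_of_diff {f : XX → ℝ} {F : M → ℝ} (hF : ∀ z : XX, F z.1 = f z) {z : XX}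
    (h : DifferentiableAt ℝ (hext F) z.1.toProd) : ∃ v₁ v₂ : E3, HasGrad f z v₁ v₂ := by
  set L' := fderiv ℝ (hext F) z.1.toProd with hL'
  have hd : HasFDerivAt (hext F) L' z.1.toProd := h.hasFDerivAt
  set v₁ : E3 := (InnerProductSpace.toDual ℝ E3).symm (L'.comp (ContinuousLinearMap.inl ℝ E3 E3))
    with hv₁
  set v₂ : E3 := (InnerProductSpace.toDual ℝ E3).symm (L'.comp (ContinuousLinearMap.inr ℝ E3 E3))
    with hv₂
  have e1 : ∀ x, inner ℝ v₁ x = L' (x, 0) := by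
    intro x
    rw [hv₁, InnerProductSpace.toDual_symm_apply]
    rfl
  have e2 : ∀ x, inner ℝ v₂ x = L' (0, x) := by
    intro x
    rw [hv₂, InnerProductSpace.toDual_symm_apply]
    rfl
  have e3 : ∀ x : E3 × E3, L' x = inner ℝ v₁ x.1 + inner ℝ v₂ x.2 := by
    intro x
    rw [e1, e2, ← map_add, Prod.mk_add_mk, add_zero, zero_add]
  -- the radial derivatives vanish
  have r1 : L' (z.1.a, 0) = 0 := by
    have h1 : HasDerivAt (fun t : ℝ => hext F (z.1.toProd + t • (z.1.a, (0 : E3)))) (L' (z.1.a, 0)) 0 :=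
      hd.hasLineDerivAt _
    have h2 : (fun t : ℝ => hext F (z.1.toProd + t • (z.1.a, (0 : E3)))) =ᶠ[𝓝 0]
        fun _ => hext F z.1.toProd := by
      filter_upwards [lt_mem_nhds (show (-1 : ℝ) < 0 by norm_num)] with t ht
      have e : z.1.toProd + t • (z.1.a, (0 : E3)) = ((1 + t) • z.1.a, z.1.b) := by
        unfold M.toProd
        ext1
        · simp [add_smul]
        · simp
      rw [e]
      unfold hext prj M.toProd
      simp only [nrm_smul (show 0 < 1 + t by linarith)]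
    exact h1.unique ((hasDerivAt_const (0 : ℝ) (hext F z.1.toProd)).congr_of_eventuallyEq h2)
  have r2 : L' (0, z.1.b) = 0 := by
    have h1 : HasDerivAt (fun t : ℝ => hext F (z.1.toProd + t • ((0 : E3), z.1.b))) (L' (0, z.1.b)) 0 :=
      hd.hasLineDerivAt _
    have h2 : (fun t : ℝ => hext F (z.1.toProd + t • ((0 : E3), z.1.b))) =ᶠ[𝓝 0]
        fun _ => hext F z.1.toProd := by
      filter_upwards [lt_mem_nhds (show (-1 : ℝ) < 0 by norm_num)] with t ht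
      have e : z.1.toProd + t • ((0 : E3), z.1.b) = (z.1.a, (1 + t) • z.1.b) := by
        unfold M.toProd
        ext1
        · simp
        · simp [add_smul]
      rw [e]
      unfold hext prj M.toProd
      simp only [nrm_smul (show 0 < 1 + t by linarith)]
    exact h1.unique ((hasDerivAt_const (0 : ℝ) (hext F z.1.toProd)).congr_of_eventuallyEq h2)
  refine ⟨v₁, v₂, by rw [e1]; exact r1, by rw [e2]; exact r2, ?_⟩
  have h1 := (hasFDerivAt_iff_isLittleO.1 hd)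
  have hcont : Tendsto (fun w : XX => w.1.toProd) (𝓝 z) (𝓝 z.1.toProd) :=
    (M.continuous_toProd.comp continuous_subtype_val).tendsto z
  have h2 := h1.comp_tendsto hcont
  have h3 : (fun w : XX => f w - f z - (inner ℝ v₁ (w.1.a - z.1.a) + inner ℝ v₂ (w.1.b - z.1.b))) =
      ((fun x' => hext F x' - hext F z.1.toProd - L' (x' - z.1.toProd)) ∘
        fun w : XX => w.1.toProd) := by
    funext w
    simp only [Function.comp_apply]
    rw [e3]
    unfold hext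
    rw [prj_toProd, prj_toProd, hF, hF]
    rfl
  rw [h3]
  refine h2.trans_isBigO ?_
  refine IsBigO.of_bound (√3) (Eventually.of_forall fun w => ?_)
  rw [Real.norm_of_nonneg dist_nonneg]
  exact M.norm_sub_le w.1 z.1

theorem S_K6_holds : S_K6 := by
  intro hK
  refine infHilbertian_of_ae _ ?_
  rintro f g ⟨L, hL⟩ ⟨L', hL'⟩
  obtain ⟨F, hF1, hF2⟩ := extend_XX hL
  obtain ⟨G, hG1, hG2⟩ := extend_XX hL'
  filter_upwards [ae_XX hK (m0_ae_diff hF1), ae_XX hK (m0_ae_diff hG1), ae_XX hK m0_ae_pos]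
    with z h1 h2 h3
  obtain ⟨v₁, v₂, hv⟩ := grad_of_diff hF2 h1
  obtain ⟨w₁, w₂, hw⟩ := grad_of_diff hG2 h2
  exact parallelogram_of_grad (lt_of_le_of_ne z.2 (Ne.symm h3)) hv hw

end Pool.Agent.W342.RCD
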