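import Pool.Agent.W553.RCD.Stmts2
import Pool.Agent.W342.RCD.K6D

/-! K12: density points and differentiability -/

set_option autoImplicit false

open MeasureTheory Set Filter Topology Metric Asymptotics
open scoped ENNReal NNReal

namespace Pool.Agent.W342.RCD

open Pool.Agent.W553.RCD

/-- the cone over a subset of `M` -/
def cone (Z : Set M) : Set (E3 × E3) := {a | a.1 ≠ 0 ∧ a.2 ≠ 0 ∧ prj a ∈ Z}

theorem measurable_cone {Z : Set M} (hZ : MeasurableSet Z) : MeasurableSet (cone Z) := by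
  have h1 : MeasurableSet {a : E3 × E3 | a.1 ≠ 0} :=
    (isOpen_ne_fun continuous_fst continuous_const).measurableSet
  have h2 : MeasurableSet {a : E3 × E3 | a.2 ≠ 0} :=
    (isOpen_ne_fun continuous_snd continuous_const).measurableSet
  exact h1.inter (h2.inter (measurable_prj hZ))

/-- the density property -/
def Q (S : Set (E3 × E3)) (y : E3 × E3) : Prop :=
  ∀ n : ℕ, ∃ k : ℕ, ∀ w, ‖w - y‖ < 1 / ((k : ℝ) + 1) → infDist w S ≤ 1 / ((n : ℝ) + 1) * ‖w - y‖

theorem measurable_Q (S : Set (E3 × E3)) : MeasurableSet {y | Q S y} := by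
  have : {y | Q S y} = ⋂ n : ℕ, ⋃ k : ℕ, ⋂ w, {y | 1 / ((k : ℝ) + 1) ≤ ‖w - y‖ ∨
      infDist w S ≤ 1 / ((n : ℝ) + 1) * ‖w - y‖} := by
    ext y
    simp only [Q, mem_ofPred_eq, mem_iInter, mem_iUnion]
    refine forall_congr' fun n => exists_congr fun k => forall_congr' fun w => ?_
    rw [or_iff_not_imp_left, not_le]
  rw [this]
  refine MeasurableSet.iInter fun n => MeasurableSet.iUnion fun k => IsClosed.measurableSet ?_
  refine isClosed_iInter fun w => ?_
  have hc : Continuous fun y : E3 × E3 => ‖w - y‖ := (continuous_const.sub continuous_id).norm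
  exact (isClosed_le continuous_const hc).union
    (isClosed_le continuous_const (continuous_const.mul hc))

theorem Q_of_density (S : Set (E3 × E3)) (y : E3 × E3)
    (h : Tendsto (fun r => volume (S ∩ closedBall y r) / volume (closedBall y r)) (𝓝[>] (0 : ℝ))
      (𝓝 1)) : Q S y := by
  intro n
  set ε : ℝ := 1 / ((n : ℝ) + 1) with hε
  have hε0 : 0 < ε := by rw [hε]; positivity
  have hε1 : ε ≤ 1 := by
    rw [hε, div_le_one (by positivity)]
    have : (0 : ℝ) ≤ n := Nat.cast_nonneg n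
    linarith
  set d := Module.finrank ℝ (E3 × E3) with hd
  set q : ℝ≥0∞ := ENNReal.ofReal ((ε / 2) ^ d) with hq
  have hq0 : 0 < q := ENNReal.ofReal_pos.2 (by positivity)
  have h1 : Tendsto (fun r => volume (S ∩ closedBall y r) / volume (closedBall y r) + q)
      (𝓝[>] (0 : ℝ)) (𝓝 (1 + q)) := h.add_const q
  have h2 := h1.eventually (lt_mem_nhds (ENNReal.lt_add_right ENNReal.one_ne_top hq0.ne'))
  rw [eventually_nhdsWithin_iff, Metric.eventually_nhds_iff] at h2
  obtain ⟨δ, hδ, hδ2⟩ := h2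
  obtain ⟨k, hk⟩ := exists_nat_one_div_lt (show 0 < δ / 2 by positivity)
  refine ⟨k, fun w hw => ?_⟩
  by_contra hcon
  rw [not_le] at hcon
  set ρ := ‖w - y‖ with hρ
  have hρ0 : 0 < ρ := by
    rcases (norm_nonneg (w - y)).eq_or_lt with h0 | h0
    · exfalso
      rw [← hρ] at h0
      rw [← h0, mul_zero] at hcon
      -- `w = y`, distance positive: the density at `y` would be zero
      have hwy : w = y := by
        have : ‖w - y‖ = 0 := by rw [← hρ, ← h0]
        exact sub_eq_zero.1 (norm_eq_zero.1 this)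
      rw [hwy] at hcon
      have h3 : ∀ᶠ r in 𝓝[>] (0 : ℝ),
          volume (S ∩ closedBall y r) / volume (closedBall y r) = 0 := by
        filter_upwards [Ioo_mem_nhdsGT hcon] with r hr
        have : S ∩ closedBall y r = ∅ := by
          rw [eq_empty_iff_forall_notMem]
          rintro x ⟨hx1, hx2⟩
          have := infDist_le_dist_of_mem (x := y) hx1
          rw [mem_closedBall, dist_comm] at hx2
          linarith [hr.2]
        rw [this, measure_empty, ENNReal.zero_div]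
      have h4 := tendsto_nhds_unique (tendsto_const_nhds.congr' (h3.mono fun r hr => hr.symm)) h
      exact zero_ne_one h4
    · exact h0
  have hb1 : ball w (ε * ρ) ⊆ closedBall y (2 * ρ) := by
    intro x hx
    rw [mem_ball] at hx
    rw [mem_closedBall]
    have h3 : dist w y = ρ := by rw [dist_eq_norm]
    have h4 := dist_triangle x w y
    have h5 : ε * ρ ≤ ρ := by nlinarith
    linarith
  have hb2 : Disjoint (S ∩ closedBall y (2 * ρ)) (ball w (ε * ρ)) := by
    rw [Set.disjoint_left]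
    rintro x ⟨hx, -⟩ hx2
    have := infDist_le_dist_of_mem (x := w) hx
    rw [mem_ball, dist_comm] at hx2
    linarith
  have h3 : volume (S ∩ closedBall y (2 * ρ)) + volume (ball w (ε * ρ)) ≤
      volume (closedBall y (2 * ρ)) := by
    rw [← measure_union hb2 measurableSet_ball]
    exact measure_mono (union_subset inter_subset_right hb1)
  have h4 : volume (ball w (ε * ρ)) = q * volume (closedBall y (2 * ρ)) := by
    rw [Measure.addHaar_ball _ _ (by positivity), Measure.addHaar_closedBall _ _ (by positivity),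
      ← mul_assoc, hq, ← ENNReal.ofReal_mul (by positivity)]
    congr 2
    rw [← mul_pow]
    congr 1
    ring
  have hpos : volume (closedBall y (2 * ρ)) ≠ 0 :=
    (measure_closedBall_pos _ _ (by positivity)).ne'
  have hfin : volume (closedBall y (2 * ρ)) ≠ ∞ := measure_closedBall_lt_top.ne
  have h5 : volume (S ∩ closedBall y (2 * ρ)) / volume (closedBall y (2 * ρ)) + q ≤ 1 := by
    rw [h4] at h3
    have h6 : volume (S ∩ closedBall y (2 * ρ)) / volume (closedBall y (2 * ρ)) + q =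
        (volume (S ∩ closedBall y (2 * ρ)) + q * volume (closedBall y (2 * ρ))) /
          volume (closedBall y (2 * ρ)) := by
      rw [ENNReal.add_div, ENNReal.mul_div_cancel_right hpos hfin]
    rw [h6]
    exact ENNReal.div_le_of_le_mul (by rwa [one_mul])
  have h6 := hδ2 (y := 2 * ρ) (by
    rw [dist_zero_right, Real.norm_of_nonneg (by positivity)]
    linarith) (show (0 : ℝ) < 2 * ρ by positivity)
  exact absurd h5 (not_le.2 h6)

theorem ae_Q (S : Set (E3 × E3)) (hS : MeasurableSet S) :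
    ∀ᵐ y : E3 × E3, y ∈ S → Q S y := by
  rw [← ae_restrict_iff' hS]
  filter_upwards [Besicovitch.ae_tendsto_measure_inter_div (volume : Measure (E3 × E3)) S] with y hy
  exact Q_of_density S y hy

theorem Q_transfer {Z : Set M} {y : E3 × E3} (h1 : y.1 ≠ 0) (h2 : y.2 ≠ 0) (hne : (cone Z).Nonempty)
    (h : Q (cone Z) y) : Q (cone Z) (prj y).toProd := by
  set r₁ := ‖y.1‖ with hr₁
  set r₂ := ‖y.2‖ with hr₂
  have hr1 : 0 < r₁ := norm_pos_iff.2 h1
  have hr2 : 0 < r₂ := norm_pos_iff.2 h2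
  set c := max r₁ r₂ with hc
  set d := max r₁⁻¹ r₂⁻¹ with hd
  have hc0 : 0 < c := lt_max_of_lt_left hr1
  have hd0 : 0 < d := lt_max_of_lt_left (inv_pos.2 hr1)
  have e2 : (r₁ • (prj y).toProd.1, r₂ • (prj y).toProd.2) = y := by
    have a1 : (prj y).toProd.1 = r₁⁻¹ • y.1 := by
      show nrm y.1 = _
      unfold nrm
      rw [if_neg h1]
    have a2 : (prj y).toProd.2 = r₂⁻¹ • y.2 := by
      show nrm y.2 = _
      unfold nrm
      rw [if_neg h2]
    rw [a1, a2, smul_smul, smul_smul, mul_inv_cancel₀ hr1.ne', mul_inv_cancel₀ hr2.ne', one_smul,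
      one_smul]
  intro n
  obtain ⟨n', hn'⟩ := exists_nat_one_div_lt (show 0 < 1 / ((n : ℝ) + 1) / (c * d) by positivity)
  obtain ⟨k, hk⟩ := h n'
  obtain ⟨k', hk'⟩ := exists_nat_one_div_lt (show 0 < 1 / ((k : ℝ) + 1) / c by positivity)
  refine ⟨k', fun w hw => ?_⟩
  have hS : ‖((r₁ • w.1, r₂ • w.2) : E3 × E3) - y‖ ≤ c * ‖w - (prj y).toProd‖ := by
    have e3 : ((r₁ • w.1, r₂ • w.2) : E3 × E3) - y =
        (r₁ • (w - (prj y).toProd).1, r₂ • (w - (prj y).toProd).2) := by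
      nth_rewrite 1 [← e2]
      ext1
      · simp [smul_sub]
      · simp [smul_sub]
    rw [e3, Prod.norm_def]
    dsimp only
    rw [norm_smul, norm_smul, Real.norm_of_nonneg hr1.le, Real.norm_of_nonneg hr2.le]
    refine max_le ?_ ?_
    · exact mul_le_mul (le_max_left _ _) (norm_fst_le _) (norm_nonneg _) hc0.le
    · exact mul_le_mul (le_max_right _ _) (norm_snd_le _) (norm_nonneg _) hc0.le
  have h3 := hk ((r₁ • w.1, r₂ • w.2) : E3 × E3) (by
    refine hS.trans_lt ?_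
    have h4 : ‖w - (prj y).toProd‖ < 1 / ((k : ℝ) + 1) / c := hw.trans hk'
    rw [lt_div_iff₀ hc0] at h4
    linarith)
  -- distances
  have h4 : infDist w (cone Z) ≤ d * infDist ((r₁ • w.1, r₂ • w.2) : E3 × E3) (cone Z) := by
    refine le_of_forall_pos_le_add fun η hη => ?_
    obtain ⟨a, ha, ha2⟩ := (infDist_lt_iff hne).1
      (lt_add_of_pos_right (infDist ((r₁ • w.1, r₂ • w.2) : E3 × E3) (cone Z))
        (show 0 < η / d by positivity))
    have ha' : (r₁⁻¹ • a.1, r₂⁻¹ • a.2) ∈ cone Z := by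
      refine ⟨smul_ne_zero (inv_ne_zero hr1.ne') ha.1, smul_ne_zero (inv_ne_zero hr2.ne') ha.2.1, ?_⟩
      have : prj (r₁⁻¹ • a.1, r₂⁻¹ • a.2) = prj a := by
        unfold prj
        simp only [nrm_smul (inv_pos.2 hr1), nrm_smul (inv_pos.2 hr2)]
      rw [this]
      exact ha.2.2
    refine (infDist_le_dist_of_mem ha').trans ?_
    have h5 : dist w (r₁⁻¹ • a.1, r₂⁻¹ • a.2) ≤ d * dist ((r₁ • w.1, r₂ • w.2) : E3 × E3) a := by
      rw [dist_eq_norm, dist_eq_norm]
      have e3 : w - (r₁⁻¹ • a.1, r₂⁻¹ • a.2) =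
          (r₁⁻¹ • (((r₁ • w.1, r₂ • w.2) : E3 × E3) - a).1,
            r₂⁻¹ • (((r₁ • w.1, r₂ • w.2) : E3 × E3) - a).2) := by
        ext1
        · simp only [Prod.fst_sub, smul_sub, smul_smul, inv_mul_cancel₀ hr1.ne', one_smul]
        · simp only [Prod.snd_sub, smul_sub, smul_smul, inv_mul_cancel₀ hr2.ne', one_smul]
      rw [e3, Prod.norm_def]
      dsimp only
      rw [norm_smul, norm_smul, Real.norm_of_nonneg (inv_pos.2 hr1).le,
        Real.norm_of_nonneg (inv_pos.2 hr2).le]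
      refine max_le ?_ ?_
      · exact mul_le_mul (le_max_left _ _) (norm_fst_le _) (norm_nonneg _) hd0.le
      · exact mul_le_mul (le_max_right _ _) (norm_snd_le _) (norm_nonneg _) hd0.le
    refine h5.trans ?_
    have h6 := mul_le_mul_of_nonneg_left ha2.le hd0.le
    rw [mul_add, mul_div_cancel₀ _ hd0.ne'] at h6
    exact h6
  refine h4.trans ?_
  calc d * infDist ((r₁ • w.1, r₂ • w.2) : E3 × E3) (cone Z)
      ≤ d * (1 / ((n' : ℝ) + 1) * ‖((r₁ • w.1, r₂ • w.2) : E3 × E3) - y‖) := by gcongr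
    _ ≤ d * (1 / ((n : ℝ) + 1) / (c * d) * (c * ‖w - (prj y).toProd‖)) := by
        gcongr
    _ = 1 / ((n : ℝ) + 1) * ‖w - (prj y).toProd‖ := by field_simp

theorem diffW_lip {W : E3 × E3 → E3 × E3}
    (hW : ∀ y : E3 × E3, y.1 ≠ 0 → y.2 ≠ 0 → W y = W (prj y).toProd) {L : ℝ} (hL0 : 0 ≤ L)
    (hL : ∀ p q : M, ‖W p.toProd - W q.toProd‖ ≤ L * ‖p.toProd - q.toProd‖)
    {δ : ℝ≥0} (hδ : 0 < δ) :
    LipschitzOnWith (Real.toNNReal L * (2 / δ)) W {y | (δ : ℝ) < ‖y.1‖ ∧ (δ : ℝ) < ‖y.2‖} := by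
  refine LipschitzOnWith.of_dist_le_mul fun x hx y hy => ?_
  have hδ' : (0 : ℝ) < δ := hδ
  have hne : ∀ a : E3, (δ : ℝ) < ‖a‖ → a ≠ 0 := fun a ha => norm_pos_iff.1 (hδ'.trans ha)
  rw [dist_eq_norm, hW x (hne _ hx.1) (hne _ hx.2), hW y (hne _ hy.1) (hne _ hy.2)]
  refine (hL _ _).trans ?_
  have key : ∀ a b : E3, (δ : ℝ) < ‖a‖ → (δ : ℝ) < ‖b‖ → ‖nrm a - nrm b‖ ≤ 2 / δ * ‖a - b‖ := by
    intro a b ha hb
    have ha0 : a ≠ 0 := hne a ha
    have hb0 : b ≠ 0 := hne b hb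
    refine (norm_nrm_sub ha0 hb0).trans ?_
    rw [div_le_iff₀ (norm_pos_iff.2 ha0)]
    have : 2 / (δ : ℝ) * ‖a - b‖ * ‖a‖ = 2 * ‖a - b‖ * (‖a‖ / δ) := by ring
    rw [this]
    have h2 : 1 ≤ ‖a‖ / (δ : ℝ) := by rw [le_div_iff₀ hδ']; linarith
    nlinarith [norm_nonneg (a - b)]
  have h2 : ‖(prj x).toProd - (prj y).toProd‖ ≤ 2 / δ * dist x y := by
    rw [Prod.norm_def]
    refine max_le ?_ ?_
    · refine (key x.1 y.1 hx.1 hy.1).trans ?_
      gcongr
      rw [dist_eq_norm]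
      exact norm_fst_le (x - y)
    · refine (key x.2 y.2 hx.2 hy.2).trans ?_
      gcongr
      rw [dist_eq_norm]
      exact norm_snd_le (x - y)
  calc L * ‖(prj x).toProd - (prj y).toProd‖ ≤ L * (2 / δ * dist x y) := by gcongr
    _ = _ := by push_cast; rw [Real.coe_toNNReal _ hL0]; ring

theorem diffW_ae {W : E3 × E3 → E3 × E3}
    (hW : ∀ y : E3 × E3, y.1 ≠ 0 → y.2 ≠ 0 → W y = W (prj y).toProd) {L : ℝ} (hL0 : 0 ≤ L)
    (hL : ∀ p q : M, ‖W p.toProd - W q.toProd‖ ≤ L * ‖p.toProd - q.toProd‖) :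
    ∀ᵐ y : E3 × E3, y.1 ≠ 0 ∧ y.2 ≠ 0 ∧ DifferentiableAt ℝ W y := by
  have h : ∀ n : ℕ, ∀ᵐ y : E3 × E3, y ∈ {y : E3 × E3 | ((1 / ((n : ℝ≥0) + 1) : ℝ≥0) : ℝ) < ‖y.1‖ ∧
      ((1 / ((n : ℝ≥0) + 1) : ℝ≥0) : ℝ) < ‖y.2‖} → DifferentiableWithinAt ℝ W
      {y : E3 × E3 | ((1 / ((n : ℝ≥0) + 1) : ℝ≥0) : ℝ) < ‖y.1‖ ∧
      ((1 / ((n : ℝ≥0) + 1) : ℝ≥0) : ℝ) < ‖y.2‖} y := fun n =>
    (diffW_lip hW hL0 hL (δ := 1 / ((n : ℝ≥0) + 1)) (by positivity)).ae_differentiableWithinAt_of_mem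
  filter_upwards [ae_all_iff.2 h, ae_ne_zero] with y hy hne
  refine ⟨hne.1, hne.2, ?_⟩
  obtain ⟨n, hn⟩ := exists_nat_one_div_lt (lt_min (norm_pos_iff.2 hne.1) (norm_pos_iff.2 hne.2))
  have hmem : y ∈ {y : E3 × E3 | ((1 / ((n : ℝ≥0) + 1) : ℝ≥0) : ℝ) < ‖y.1‖ ∧
      ((1 / ((n : ℝ≥0) + 1) : ℝ≥0) : ℝ) < ‖y.2‖} := by
    constructor
    · push_cast
      exact hn.trans_le (min_le_left _ _)
    · push_cast
      exact hn.trans_le (min_le_right _ _)
  refine (hy n hmem).differentiableAt (IsOpen.mem_nhds ?_ hmem)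
  exact (isOpen_lt continuous_const continuous_fst.norm).inter
    (isOpen_lt continuous_const continuous_snd.norm)

theorem diffW_transfer {W : E3 × E3 → E3 × E3}
    (hW : ∀ y : E3 × E3, y.1 ≠ 0 → y.2 ≠ 0 → W y = W (prj y).toProd) {y : E3 × E3}
    (h1 : y.1 ≠ 0) (h2 : y.2 ≠ 0)
    (h : DifferentiableAt ℝ W y) : DifferentiableAt ℝ W (prj y).toProd := by
  have hr1 : 0 < ‖y.1‖ := norm_pos_iff.2 h1
  have hr2 : 0 < ‖y.2‖ := norm_pos_iff.2 h2
  have hz1 : (prj y).toProd.1 ≠ 0 := by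
    intro h0
    have := (prj y).ha
    rw [show (prj y).a = 0 from h0] at this
    simp at this
  have hz2 : (prj y).toProd.2 ≠ 0 := by
    intro h0
    have := (prj y).hb
    rw [show (prj y).b = 0 from h0] at this
    simp at this
  have e1 : W =ᶠ[𝓝 (prj y).toProd] (fun w : E3 × E3 => W (‖y.1‖ • w.1, ‖y.2‖ • w.2)) := by
    have ho : IsOpen {w : E3 × E3 | w.1 ≠ 0 ∧ w.2 ≠ 0} :=
      (isOpen_ne_fun continuous_fst continuous_const).inter
        (isOpen_ne_fun continuous_snd continuous_const)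
    filter_upwards [ho.mem_nhds ⟨hz1, hz2⟩] with w hw
    rw [hW w hw.1 hw.2, hW (‖y.1‖ • w.1, ‖y.2‖ • w.2) (smul_ne_zero hr1.ne' hw.1)
      (smul_ne_zero hr2.ne' hw.2)]
    congr 2
    unfold prj
    simp only [nrm_smul hr1, nrm_smul hr2]
  have e2 : (‖y.1‖ • (prj y).toProd.1, ‖y.2‖ • (prj y).toProd.2) = y := by
    have a1 : (prj y).toProd.1 = ‖y.1‖⁻¹ • y.1 := by
      show nrm y.1 = _
      unfold nrm
      rw [if_neg h1]
    have a2 : (prj y).toProd.2 = ‖y.2‖⁻¹ • y.2 := by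
      show nrm y.2 = _
      unfold nrm
      rw [if_neg h2]
    rw [a1, a2, smul_smul, smul_smul, mul_inv_cancel₀ hr1.ne', mul_inv_cancel₀ hr2.ne', one_smul,
      one_smul]
  have h3 : DifferentiableAt ℝ (fun w : E3 × E3 => (‖y.1‖ • w.1, ‖y.2‖ • w.2)) (prj y).toProd := by
    fun_prop
  have h4 : DifferentiableAt ℝ W
      ((fun w : E3 × E3 => (‖y.1‖ • w.1, ‖y.2‖ • w.2)) (prj y).toProd) := by
    show DifferentiableAt ℝ W (‖y.1‖ • (prj y).toProd.1, ‖y.2‖ • (prj y).toProd.2)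
    rw [e2]
    exact h
  exact (DifferentiableAt.comp (g := W)
    (f := fun w : E3 × E3 => (‖y.1‖ • w.1, ‖y.2‖ • w.2)) (prj y).toProd h4 h3).congr_of_eventuallyEq e1

theorem toProd_mem_cone {Z : Set M} {z : M} (hz : z ∈ Z) : z.toProd ∈ cone Z := by
  refine ⟨?_, ?_, by rw [prj_toProd]; exact hz⟩
  · intro h0
    have := z.ha
    rw [show z.a = 0 from h0] at this
    simp at this
  · intro h0
    have := z.hb
    rw [show z.b = 0 from h0] at this
    simp at this

theorem S_K12_holds : S_K12 := by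
  rintro Z W hZ hW ⟨L, hL⟩
  have hL0 : 0 ≤ max L 0 := le_max_right _ _
  have hL' : ∀ p q : M, ‖W p.toProd - W q.toProd‖ ≤ max L 0 * ‖p.toProd - q.toProd‖ := fun p q =>
    (hL p q).trans (mul_le_mul_of_nonneg_right (le_max_left _ _) (norm_nonneg _))
  rcases (cone Z).eq_empty_or_nonempty with hemp | hne
  · refine Eventually.of_forall fun z hz => ?_
    exfalso
    have := toProd_mem_cone hz
    rw [hemp] at this
    exact this
  have hmeas : MeasurableSet {z : M | z ∈ Z → (DifferentiableAt ℝ W z.toProd ∧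
      Q (cone Z) z.toProd)} := by
    have h1 : MeasurableSet {z : M | DifferentiableAt ℝ W z.toProd} :=
      measurableEmbedding_toProd.measurable (measurableSet_of_differentiableAt ℝ W)
    have h2 : MeasurableSet {z : M | Q (cone Z) z.toProd} :=
      measurableEmbedding_toProd.measurable (measurable_Q (cone Z))
    exact hZ.measurableSet.imp (h1.inter h2)
  have h : ∀ᵐ z ∂m0, z ∈ Z → (DifferentiableAt ℝ W z.toProd ∧ Q (cone Z) z.toProd) := by
    unfold m0
    rw [ae_map_iff measurable_prj.aemeasurable hmeas]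
    refine ae_restrict_of_ae ?_
    filter_upwards [diffW_ae hW hL0 hL', ae_Q (cone Z) (measurable_cone hZ.measurableSet)]
      with y hy1 hy2 hyZ
    exact ⟨diffW_transfer hW hy1.1 hy1.2.1 hy1.2.2,
      Q_transfer hy1.1 hy1.2.1 hne (hy2 ⟨hy1.1, hy1.2.1, hyZ⟩)⟩
  filter_upwards [h] with z hz hzZ
  obtain ⟨h1, h2⟩ := hz hzZ
  refine ⟨h1, fun ε hε => ?_⟩
  obtain ⟨n, hn⟩ := exists_nat_one_div_lt hε
  obtain ⟨k, hk⟩ := h2 n
  have hb : ball z.toProd (1 / ((k : ℝ) + 1)) ∈ 𝓝 z.toProd := ball_mem_nhds _ (by positivity)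
  filter_upwards [hb] with w hw
  rw [mem_ball, dist_eq_norm] at hw
  have h3 := hk w hw
  rcases (norm_nonneg (w - z.toProd)).eq_or_lt with h0 | h0
  · have hwz : w = z.toProd := sub_eq_zero.1 (norm_eq_zero.1 h0.symm)
    obtain ⟨c1, c2, c3⟩ := toProd_mem_cone hzZ
    refine ⟨z.toProd, c1, c2, c3, ?_⟩
    rw [hwz]
    simp
  · have h4 : infDist w (cone Z) < ε * ‖w - z.toProd‖ :=
      h3.trans_lt (mul_lt_mul_of_pos_right hn h0)
    obtain ⟨a, ha, ha2⟩ := (infDist_lt_iff hne).1 h4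
    exact ⟨a, ha.1, ha.2.1, ha.2.2, by rw [← dist_eq_norm]; exact ha2.le⟩

end Pool.Agent.W342.RCD
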