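import Pool.Agent.W342.RCD.K5C

/-! K4: tangent coordinates at a boundary point -/

set_option autoImplicit false

open MeasureTheory Set Filter Topology Metric
open scoped ENNReal NNReal

namespace Pool.Agent.W342.RCD

open Pool.Agent.W553.RCD

/-- the second basis vector -/
noncomputable def e1 : E3 := EuclideanSpace.single 1 1

theorem norm_e1 : ‖e1‖ = 1 := by simp [e1]

/-- the boundary point -/
noncomputable def p0 : M := ⟨e1, e1, norm_e1, norm_e1⟩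

noncomputable def x0 : XX := ⟨p0, by show (0 : ℝ) ≤ e1 2; simp [e1]⟩

abbrev E4 : Type := EuclideanSpace ℝ (Fin 4)

/-- tangent coordinates -/
noncomputable def tc (p : M) : E4 := !₂[p.a 0, p.b 0, p.b 2, p.a 2]

/-- distance of the projections -/
noncomputable def PP (u w : E3) : ℝ := √((u 0 - w 0) ^ 2 + (u 2 - w 2) ^ 2)

theorem norm_sub_E3 (u w : E3) : ‖u - w‖ ^ 2 = (PP u w) ^ 2 + (u 1 - w 1) ^ 2 := by
  rw [PP, Real.sq_sqrt (by positivity), EuclideanSpace.norm_sq_eq, Fin.sum_univ_three]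
  simp only [Real.norm_eq_abs, sq_abs, PiLp.sub_apply]
  ring

theorem PP_nonneg (u w : E3) : 0 ≤ PP u w := Real.sqrt_nonneg _

theorem coord_one {u : E3} (hu : ‖u‖ = 1) : u 1 = Real.cos (ang u e1) := by
  rw [cos_ang hu norm_e1, e1, EuclideanSpace.inner_single_right]
  simp

theorem PP_ang {u w : E3} (hu : ‖u‖ = 1) (hw : ‖w‖ = 1) {ρ : ℝ} (h1 : ang u e1 ≤ ρ)
    (h2 : ang w e1 ≤ ρ) (hρ : ρ ≤ 1 / 2) : |PP u w - ang u w| ≤ ρ ^ 2 := by
  have hρ0 : 0 ≤ ρ := (ang_nonneg _ _).trans h1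
  have hn := norm_sub_E3 u w
  have hP := PP_nonneg u w
  have hN := norm_nonneg (u - w)
  have hle : PP u w ≤ ‖u - w‖ := by
    refine le_of_sq_le_sq ?_ hN
    nlinarith [sq_nonneg (u 1 - w 1)]
  have hle2 := norm_sub_le_ang hu hw
  set θ := ang u w with hθ
  have hθ0 : 0 ≤ θ := ang_nonneg _ _
  have hθ2 : θ ≤ 2 * ρ := by
    have := ang_triangle u e1 w
    rw [ang_comm e1 w] at this
    linarith
  -- middle coordinates
  have hc : ∀ x : E3, ‖x‖ = 1 → ang x e1 ≤ ρ → 1 - ρ ^ 2 / 2 ≤ x 1 ∧ x 1 ≤ 1 := by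
    intro x hx hxρ
    rw [coord_one hx]
    refine ⟨?_, Real.cos_le_one _⟩
    have h3 := Real.one_sub_sq_div_two_le_cos (x := ang x e1)
    have h4 := ang_nonneg x e1
    nlinarith
  obtain ⟨a1, a2⟩ := hc u hu h1
  obtain ⟨b1, b2⟩ := hc w hw h2
  have hmid : |u 1 - w 1| ≤ ρ ^ 2 / 2 := by
    rw [abs_le]; constructor <;> linarith
  have hle3 : ‖u - w‖ ≤ PP u w + ρ ^ 2 / 2 := by
    refine le_of_sq_le_sq ?_ (by positivity)
    rw [hn]
    have h5 : (u 1 - w 1) ^ 2 ≤ (ρ ^ 2 / 2) ^ 2 := by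
      rw [← sq_abs]
      exact pow_le_pow_left₀ (abs_nonneg _) hmid 2
    nlinarith [mul_nonneg hP (sq_nonneg ρ)]
  have hle4 : θ ≤ ‖u - w‖ + ρ ^ 3 / 2 := by
    rcases hθ0.eq_or_lt with h0 | h0
    · rw [← h0]; positivity
    have h6 : ‖u - w‖ = 2 * Real.sin (θ / 2) := by
      have h7 : 0 ≤ Real.sin (θ / 2) := Real.sin_nonneg_of_nonneg_of_le_pi (by linarith)
        (by linarith [Real.pi_gt_three])
      have h8 : ‖u - w‖ ^ 2 = (2 * Real.sin (θ / 2)) ^ 2 := by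
        rw [norm_sub_sq_unit hu hw, ← hθ]
        have h9 : Real.cos θ = 1 - 2 * Real.sin (θ / 2) ^ 2 := by
          have := Real.cos_two_mul' (θ / 2)
          rw [show 2 * (θ / 2) = θ by ring] at this
          have h10 := Real.sin_sq_add_cos_sq (θ / 2)
          linarith
        rw [h9]; ring
      exact (sq_eq_sq₀ hN (by positivity)).1 h8
    have h7 := Real.sin_gt_sub_cube (x := θ / 2) (by linarith)
    rw [h6]
    have h8 : θ ^ 3 ≤ (2 * ρ) ^ 3 := pow_le_pow_left₀ hθ0 hθ2 3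
    nlinarith
  rw [abs_le]
  constructor
  · have h9 : ρ ^ 3 / 2 ≤ ρ ^ 2 / 2 := by nlinarith [sq_nonneg ρ]
    linarith
  · nlinarith [sq_nonneg ρ]

theorem abs_sqrt_sub (a b c d : ℝ) :
    |√(a ^ 2 + b ^ 2) - √(c ^ 2 + d ^ 2)| ≤ |a - c| + |b - d| := by
  have key : ∀ x y : ℝ, √(x ^ 2 + y ^ 2) ≤ |x| + |y| := by
    intro x y
    refine Real.sqrt_le_iff.2 ⟨by positivity, ?_⟩
    nlinarith [sq_abs x, sq_abs y, mul_nonneg (abs_nonneg x) (abs_nonneg y)]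
  have h1 := minkowski2 (a - c) (b - d) c d
  have h2 := minkowski2 (c - a) (d - b) a b
  rw [sub_add_cancel, sub_add_cancel] at h1 h2
  have k1 := key (a - c) (b - d)
  have k2 := key (c - a) (d - b)
  rw [abs_sub_comm c a, abs_sub_comm d b] at k2
  rw [abs_le]
  constructor <;> linarith

theorem norm_tc_sub (p q : M) : ‖tc p - tc q‖ = √((PP p.a q.a) ^ 2 + (PP p.b q.b) ^ 2) := by
  rw [EuclideanSpace.norm_eq, Fin.sum_univ_four, PP, PP, Real.sq_sqrt (by positivity),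
    Real.sq_sqrt (by positivity)]
  congr 1
  simp only [Real.norm_eq_abs, sq_abs, PiLp.sub_apply]
  have f0 : (tc p) 0 = p.a 0 := rfl
  have f1 : (tc p) 1 = p.b 0 := rfl
  have f2 : (tc p) 2 = p.b 2 := rfl
  have f3 : (tc p) 3 = p.a 2 := rfl
  have g0 : (tc q) 0 = q.a 0 := rfl
  have g1 : (tc q) 1 = q.b 0 := rfl
  have g2 : (tc q) 2 = q.b 2 := rfl
  have g3 : (tc q) 3 = q.a 2 := rfl
  rw [f0, f1, f2, f3, g0, g1, g2, g3]
  ring

theorem sqrt3_dist (p q : M) : √3 * dist p q = √((ang p.a q.a) ^ 2 + (ang p.b q.b) ^ 2) := by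
  rw [M.dist_def]; field_simp

/-- distortion of the tangent coordinates -/
theorem tc_dist (p q : M) {ρ : ℝ} (hρ : ρ ≤ 1 / 2) (h1 : ang p.a e1 ≤ ρ) (h2 : ang p.b e1 ≤ ρ)
    (h3 : ang q.a e1 ≤ ρ) (h4 : ang q.b e1 ≤ ρ) : |‖tc p - tc q‖ - √3 * dist p q| ≤ 2 * ρ ^ 2 := by
  rw [norm_tc_sub, sqrt3_dist]
  refine (abs_sqrt_sub _ _ _ _).trans ?_
  have := PP_ang p.ha q.ha h1 h3 hρ
  have := PP_ang p.hb q.hb h2 h4 hρ
  linarith

theorem ang_le_dist (p : M) : ang p.a e1 ≤ √3 * dist p p0 ∧ ang p.b e1 ≤ √3 * dist p p0 := by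
  rw [sqrt3_dist]
  constructor
  · refine Real.le_sqrt_of_sq_le ?_
    show _ ≤ (ang p.a e1) ^ 2 + (ang p.b e1) ^ 2
    nlinarith [sq_nonneg (ang p.b e1)]
  · refine Real.le_sqrt_of_sq_le ?_
    show _ ≤ (ang p.a e1) ^ 2 + (ang p.b e1) ^ 2
    nlinarith [sq_nonneg (ang p.a e1)]

theorem tc_p0 : tc p0 = 0 := by
  ext i
  fin_cases i <;> simp [tc, p0, e1]

end Pool.Agent.W342.RCD
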