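import Pool.Agent.W342.RCD.K4A

/-! K4: the half space is a tangent cone -/

set_option autoImplicit false

open MeasureTheory Set Filter Topology Metric
open scoped ENNReal NNReal

namespace Pool.Agent.W342.RCD

open Pool.Agent.W553.RCD

theorem wdist {α β : Type*} [MetricSpace α] [MetricSpace β] (x y : WithLp 2 (α × β)) :
    dist x y = √(dist x.fst y.fst ^ 2 + dist x.snd y.snd ^ 2) := by
  rw [WithLp.prod_dist_eq_add (by norm_num), Real.sqrt_eq_rpow]
  norm_num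

/-- the half space -/
abbrev HY : Type := WithLp 2 (EuclideanSpace ℝ (Fin 3) × {s : ℝ // 0 ≤ s})

noncomputable def y0 : HY := WithLp.toLp 2 (0, ⟨0, le_rfl⟩)

/-- the scaled chart -/
noncomputable def chart (c : ℝ) (hc : 0 ≤ c) (p : XX) : HY :=
  WithLp.toLp 2 (!₂[c * p.1.a 0, c * p.1.b 0, c * p.1.b 2], ⟨c * p.1.a 2, mul_nonneg hc p.2⟩)

theorem chart_dist (c : ℝ) (hc : 0 ≤ c) (p q : XX) :
    dist (chart c hc p) (chart c hc q) = c * ‖tc p.1 - tc q.1‖ := by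
  have h1 : (chart c hc p).fst = !₂[c * p.1.a 0, c * p.1.b 0, c * p.1.b 2] := rfl
  have h2 : (chart c hc q).fst = !₂[c * q.1.a 0, c * q.1.b 0, c * q.1.b 2] := rfl
  have h3 : dist (chart c hc p).snd (chart c hc q).snd = |c * p.1.a 2 - c * q.1.a 2| := rfl
  rw [wdist, h1, h2, h3, EuclideanSpace.norm_eq, Fin.sum_univ_four, EuclideanSpace.dist_eq,
    Fin.sum_univ_three, Real.sq_sqrt (by positivity)]
  have e : ∀ x : ℝ, c * √x = √(c ^ 2 * x) := by
    intro x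
    rw [Real.sqrt_mul (by positivity), Real.sqrt_sq hc]
  rw [e]
  congr 1
  have f0 : (tc p.1 - tc q.1) 0 = p.1.a 0 - q.1.a 0 := rfl
  have f1 : (tc p.1 - tc q.1) 1 = p.1.b 0 - q.1.b 0 := rfl
  have f2 : (tc p.1 - tc q.1) 2 = p.1.b 2 - q.1.b 2 := rfl
  have f3 : (tc p.1 - tc q.1) 3 = p.1.a 2 - q.1.a 2 := rfl
  rw [f0, f1, f2, f3]
  have g0 : (!₂[c * p.1.a 0, c * p.1.b 0, c * p.1.b 2] : EuclideanSpace ℝ (Fin 3)) 0 =
    c * p.1.a 0 := rfl
  have g1 : (!₂[c * p.1.a 0, c * p.1.b 0, c * p.1.b 2] : EuclideanSpace ℝ (Fin 3)) 1 =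
    c * p.1.b 0 := rfl
  have g2 : (!₂[c * p.1.a 0, c * p.1.b 0, c * p.1.b 2] : EuclideanSpace ℝ (Fin 3)) 2 =
    c * p.1.b 2 := rfl
  have k0 : (!₂[c * q.1.a 0, c * q.1.b 0, c * q.1.b 2] : EuclideanSpace ℝ (Fin 3)) 0 =
    c * q.1.a 0 := rfl
  have k1 : (!₂[c * q.1.a 0, c * q.1.b 0, c * q.1.b 2] : EuclideanSpace ℝ (Fin 3)) 1 =
    c * q.1.b 0 := rfl
  have k2 : (!₂[c * q.1.a 0, c * q.1.b 0, c * q.1.b 2] : EuclideanSpace ℝ (Fin 3)) 2 =
    c * q.1.b 2 := rfl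
  rw [g0, g1, g2, k0, k1, k2]
  simp only [Real.norm_eq_abs, sq_abs, Real.dist_eq]
  ring

theorem chart_x0 (c : ℝ) (hc : 0 ≤ c) : chart c hc x0 = y0 := by
  have h : dist (chart c hc x0) y0 = 0 := by
    rw [wdist]
    have h1 : (chart c hc x0).fst = 0 := by
      ext i
      have : (chart c hc x0).fst = !₂[c * x0.1.a 0, c * x0.1.b 0, c * x0.1.b 2] := rfl
      rw [this]
      fin_cases i <;> simp [x0, p0, e1]
    have h2 : (y0 : HY).fst = 0 := rfl
    have h3 : dist (chart c hc x0).snd (y0 : HY).snd = |c * x0.1.a 2 - 0| := rfl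
    rw [h1, h2, h3, dist_self]
    simp [x0, p0, e1]
  exact dist_eq_zero.1 h

theorem norm_vec3 {x y z : ℝ} (h : x ^ 2 + y ^ 2 + z ^ 2 = 1) : ‖(!₂[x, y, z] : E3)‖ = 1 := by
  rw [EuclideanSpace.norm_eq, Fin.sum_univ_three]
  simp only [Real.norm_eq_abs, sq_abs, Matrix.cons_val_zero, Matrix.cons_val_one,
    Matrix.cons_val_two, Matrix.tail_cons, Matrix.head_cons]
  have : x ^ 2 + y ^ 2 + z ^ 2 = 1 := h
  simp [this]

/-- lift of small tangent vectors of the sphere -/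
theorem lift_ang {x z t : ℝ} (hx : x ^ 2 + z ^ 2 ≤ t ^ 2) (ht : 0 ≤ t) (ht1 : t ≤ 1) :
    ∃ u : E3, ‖u‖ = 1 ∧ u 0 = x ∧ u 2 = z ∧ ang u e1 ≤ 3 * t := by
  have hnn : 0 ≤ 1 - x ^ 2 - z ^ 2 := by nlinarith
  set s := √(1 - x ^ 2 - z ^ 2) with hs
  have hs2 : s ^ 2 = 1 - x ^ 2 - z ^ 2 := Real.sq_sqrt hnn
  have hs0 : 0 ≤ s := Real.sqrt_nonneg _
  have hs1 : s ≤ 1 := by nlinarith [sq_nonneg x, sq_nonneg z]
  have hu : ‖(!₂[x, s, z] : E3)‖ = 1 := norm_vec3 (by rw [hs2]; ring)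
  refine ⟨!₂[x, s, z], hu, rfl, rfl, ?_⟩
  have h1 := ang_le_norm_sub hu norm_e1
  have h2 := norm_sub_E3 (!₂[x, s, z] : E3) e1
  have h3 : (PP (!₂[x, s, z] : E3) e1) ^ 2 = x ^ 2 + z ^ 2 := by
    rw [PP, Real.sq_sqrt (by positivity)]
    have a0 : (!₂[x, s, z] : E3) 0 = x := rfl
    have a2 : (!₂[x, s, z] : E3) 2 = z := rfl
    have b0 : e1 0 = 0 := by simp [e1]
    have b2 : e1 2 = 0 := by simp [e1]
    rw [a0, a2, b0, b2]; ring
  have a1 : (!₂[x, s, z] : E3) 1 = s := rfl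
  have b1 : e1 1 = 1 := by simp [e1]
  rw [h3, a1, b1] at h2
  have h4 : ‖(!₂[x, s, z] : E3) - e1‖ ^ 2 ≤ 2 * t ^ 2 := by
    rw [h2]
    nlinarith [sq_nonneg x, sq_nonneg z]
  have hpi : Real.pi ≤ 3.15 := Real.pi_lt_d2.le
  have h5 : (Real.pi / 2 * ‖(!₂[x, s, z] : E3) - e1‖) ^ 2 ≤ (3 * t) ^ 2 := by
    rw [mul_pow]
    have h6 : (Real.pi / 2) ^ 2 ≤ 2.5 := by nlinarith [Real.pi_pos]
    nlinarith [sq_nonneg t, sq_nonneg (Real.pi / 2)]
  exact h1.trans (le_of_sq_le_sq h5 (by positivity))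

theorem tangent_cone_HY : IsTangentCone x0 HY y0 := by
  have hcomp : CompleteSpace HY := by
    have : CompleteSpace {s : ℝ // 0 ≤ s} := (isClosed_Ici (a := (0 : ℝ))).completeSpace_coe
    infer_instance
  refine ⟨hcomp, fun n => 1 / ((n : ℝ) + 1), fun n => by positivity,
    tendsto_one_div_add_atTop_nhds_zero_nat, ?_⟩
  intro R hR ε hε
  have h3 : (0 : ℝ) < √3 := by positivity
  have h3' : √3 ≤ 2 := by
    rw [Real.sqrt_le_left (by norm_num)]; norm_num
  have h31 : 1 ≤ √3 := by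
    rw [Real.one_le_sqrt]; norm_num
  have hlim := tendsto_one_div_add_atTop_nhds_zero_nat (𝕜 := ℝ)
  have hev1 : ∀ᶠ n : ℕ in atTop, 1 / ((n : ℝ) + 1) < 1 / (12 * R + 1) / 2 :=
    hlim.eventually (gt_mem_nhds (by positivity))
  have hev2 : ∀ᶠ n : ℕ in atTop, 1 / ((n : ℝ) + 1) < ε / (72 * R ^ 2 + 1) :=
    hlim.eventually (gt_mem_nhds (by positivity))
  filter_upwards [hev1, hev2] with n hn1 hn2
  set r := 1 / ((n : ℝ) + 1) with hr
  have hr0 : 0 < r := by rw [hr]; positivity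
  have hrR : 12 * (R * r) ≤ 1 / 2 := by
    rw [div_div, lt_div_iff₀ (by positivity)] at hn1
    nlinarith
  have hRr : R * r ≤ 1 / 24 := by linarith
  have hRr0 : 0 < R * r := mul_pos hR hr0
  have hrε : 72 * R ^ 2 * r < ε := by
    rw [lt_div_iff₀ (by positivity)] at hn2
    nlinarith
  set c := (√3 * r)⁻¹ with hc
  have hc0 : 0 < c := by rw [hc]; positivity
  have hcr : c * (√3 * r) = 1 := by rw [hc]; exact inv_mul_cancel₀ (by positivity)
  refine ⟨chart c hc0.le, chart_x0 _ _, ?_, ?_⟩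
  · intro p q hp hq
    have hp' := ang_le_dist p.1
    have hq' := ang_le_dist q.1
    have e1' : dist p.1 p0 < R * r := hp
    have e2' : dist q.1 p0 < R * r := hq
    have b1 : √3 * dist p.1 p0 ≤ 2 * (R * r) := by
      calc √3 * dist p.1 p0 ≤ 2 * dist p.1 p0 :=
            mul_le_mul_of_nonneg_right h3' dist_nonneg
        _ ≤ 2 * (R * r) := by linarith
    have b2 : √3 * dist q.1 p0 ≤ 2 * (R * r) := by
      calc √3 * dist q.1 p0 ≤ 2 * dist q.1 p0 :=
            mul_le_mul_of_nonneg_right h3' dist_nonneg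
        _ ≤ 2 * (R * r) := by linarith
    have hd := tc_dist p.1 q.1 (ρ := 2 * (R * r)) (by linarith) (hp'.1.trans b1)
      (hp'.2.trans b1) (hq'.1.trans b2) (hq'.2.trans b2)
    rw [chart_dist]
    have h5 : c * ‖tc p.1 - tc q.1‖ - dist p q / r =
        c * (‖tc p.1 - tc q.1‖ - √3 * dist p.1 q.1) := by
      have : dist p q / r = c * (√3 * dist p.1 q.1) := by
        rw [hc]
        have : dist p q = dist p.1 q.1 := rfl
        rw [this]
        field_simp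
      rw [this]; ring
    rw [h5, abs_mul, abs_of_pos hc0]
    calc c * |‖tc p.1 - tc q.1‖ - √3 * dist p.1 q.1| ≤ c * (2 * (2 * (R * r)) ^ 2) := by gcongr
      _ = (c * (√3 * r)) * (8 * R ^ 2 * r / √3) := by field_simp; ring
      _ = 8 * R ^ 2 * r / √3 := by rw [hcr, one_mul]
      _ ≤ 8 * R ^ 2 * r := div_le_self (by positivity) h31
      _ < ε := by nlinarith [mul_pos (pow_pos hR 2) hr0]
  · intro z hz
    have hz' : dist z y0 < R - ε := hz
    rw [wdist] at hz'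
    set A : ℝ := √3 * r * z.fst 0 with hA
    set B' : ℝ := √3 * r * z.fst 1 with hB
    set C : ℝ := √3 * r * z.fst 2 with hC
    set S : ℝ := √3 * r * (z.snd : ℝ) with hS
    have hzf : dist z.fst (y0 : HY).fst ^ 2 = z.fst 0 ^ 2 + z.fst 1 ^ 2 + z.fst 2 ^ 2 := by
      have : (y0 : HY).fst = 0 := rfl
      rw [this, dist_zero_right, EuclideanSpace.norm_sq_eq, Fin.sum_univ_three]
      simp only [Real.norm_eq_abs, sq_abs]
    have hzs : dist z.snd (y0 : HY).snd ^ 2 = (z.snd : ℝ) ^ 2 := by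
      have : dist z.snd (y0 : HY).snd = |(z.snd : ℝ) - 0| := rfl
      rw [this, sq_abs, sub_zero]
    rw [hzf, hzs] at hz'
    set Nz := √(z.fst 0 ^ 2 + z.fst 1 ^ 2 + z.fst 2 ^ 2 + (z.snd : ℝ) ^ 2) with hNz
    have hNz2 : Nz ^ 2 = z.fst 0 ^ 2 + z.fst 1 ^ 2 + z.fst 2 ^ 2 + (z.snd : ℝ) ^ 2 :=
      Real.sq_sqrt (by positivity)
    have hNz0 : 0 ≤ Nz := Real.sqrt_nonneg _
    have hNR : Nz ≤ R := by linarith
    have h33 : √3 ^ 2 = 3 := Real.sq_sqrt (by norm_num)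
    have ht : √3 * r * Nz ≤ 2 * (R * r) := by
      calc √3 * r * Nz ≤ 2 * r * R := by gcongr
        _ = _ := by ring
    have hsq1 : A ^ 2 + S ^ 2 ≤ (2 * (R * r)) ^ 2 := by
      have : A ^ 2 + S ^ 2 ≤ (√3 * r * Nz) ^ 2 := by
        rw [mul_pow (√3 * r) Nz, hNz2, hA, hS]
        nlinarith [mul_nonneg (sq_nonneg (√3 * r)) (sq_nonneg (z.fst 1)),
          mul_nonneg (sq_nonneg (√3 * r)) (sq_nonneg (z.fst 2))]
      exact this.trans (pow_le_pow_left₀ (by positivity) ht 2)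
    have hsq2 : B' ^ 2 + C ^ 2 ≤ (2 * (R * r)) ^ 2 := by
      have : B' ^ 2 + C ^ 2 ≤ (√3 * r * Nz) ^ 2 := by
        rw [mul_pow (√3 * r) Nz, hNz2, hB, hC]
        nlinarith [mul_nonneg (sq_nonneg (√3 * r)) (sq_nonneg (z.fst 0)),
          mul_nonneg (sq_nonneg (√3 * r)) (sq_nonneg (z.snd : ℝ))]
      exact this.trans (pow_le_pow_left₀ (by positivity) ht 2)
    obtain ⟨u, hu1, hu2, hu3, hu4⟩ := lift_ang hsq1 (by positivity) (by linarith)
    obtain ⟨v, hv1, hv2, hv3, hv4⟩ := lift_ang hsq2 (by positivity) (by linarith)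
    have hS0 : 0 ≤ S := by
      rw [hS]
      exact mul_nonneg (by positivity) z.snd.2
    let p : XX := ⟨⟨u, v, hu1, hv1⟩, by rw [hu3]; exact hS0⟩
    have hfp : chart c hc0.le p = z := by
      have hd0 : dist (chart c hc0.le p) z = 0 := by
        rw [wdist]
        have g0 : (chart c hc0.le p).fst = z.fst := by
          have : (chart c hc0.le p).fst = !₂[c * u 0, c * v 0, c * v 2] := rfl
          rw [this]
          ext i
          fin_cases i
          · show c * u 0 = z.fst 0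
            rw [hu2, hA, ← mul_assoc, hcr, one_mul]
          · show c * v 0 = z.fst 1
            rw [hv2, hB, ← mul_assoc, hcr, one_mul]
          · show c * v 2 = z.fst 2
            rw [hv3, hC, ← mul_assoc, hcr, one_mul]
        have g1 : dist (chart c hc0.le p).snd z.snd = |c * u 2 - z.snd| := rfl
        rw [g0, g1, dist_self, hu3, hS, ← mul_assoc, hcr, one_mul, sub_self]
        simp
      exact dist_eq_zero.1 hd0
    refine ⟨p, ?_, by rw [hfp, dist_self]; exact hε⟩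
    -- the distance to `x0`
    have hd := tc_dist p.1 p0 (ρ := 3 * (2 * (R * r))) (by linarith) hu4 hv4 (by
      show ang e1 e1 ≤ _
      rw [ang_self norm_e1]; positivity) (by
      show ang e1 e1 ≤ _
      rw [ang_self norm_e1]; positivity)
    have hn : ‖tc p.1 - tc p0‖ = √3 * r * Nz := by
      rw [tc_p0, sub_zero]
      have h6 : ‖tc p.1‖ ^ 2 = (√3 * r * Nz) ^ 2 := by
        rw [EuclideanSpace.norm_sq_eq, Fin.sum_univ_four]
        have f0 : (tc p.1) 0 = u 0 := rfl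
        have f1 : (tc p.1) 1 = v 0 := rfl
        have f2 : (tc p.1) 2 = v 2 := rfl
        have f3 : (tc p.1) 3 = u 2 := rfl
        rw [f0, f1, f2, f3, hu2, hu3, hv2, hv3, mul_pow (√3 * r) Nz, hNz2, hA, hB, hC, hS]
        simp only [Real.norm_eq_abs, sq_abs]
        ring
      exact (sq_eq_sq₀ (norm_nonneg _) (by positivity)).1 h6
    rw [hn] at hd
    have h7 : √3 * dist p.1 p0 ≤ √3 * r * Nz + 2 * (3 * (2 * (R * r))) ^ 2 := by
      have := (abs_le.1 hd).1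
      linarith
    have h8 : √3 * dist p.1 p0 < √3 * (R * r) := by
      refine h7.trans_lt ?_
      have h9 : 2 * (3 * (2 * (R * r))) ^ 2 = (72 * R ^ 2 * r) * r := by ring
      rw [h9]
      have h10 : (72 * R ^ 2 * r) * r < ε * r := by gcongr
      have h11 : √3 * r * Nz ≤ √3 * r * (R - ε) := by gcongr
      have h12 : ε * r ≤ √3 * (ε * r) := le_mul_of_one_le_left (by positivity) h31
      nlinarith
    exact lt_of_mul_lt_mul_left h8 h3.le

theorem x0_not_mem : x0 ∉ Stratum XX 3 := by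
  intro h
  exact h HY inferInstance y0 tangent_cone_HY ⟨{s : ℝ // 0 ≤ s}, inferInstance,
    ⟨IsometryEquiv.refl _⟩⟩

end Pool.Agent.W342.RCD
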