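import Pool.Agent.W342.RCD.K4B

/-! K4: no tangent cone at `x0` splits off `ℝ⁴` -/

set_option autoImplicit false

open MeasureTheory Set Filter Topology Metric
open scoped ENNReal NNReal

namespace Pool.Agent.W342.RCD

open Pool.Agent.W553.RCD

/-- the eight vectors `± e_i` -/
noncomputable def vv (k : Fin 4 × Bool) : E4 :=
  if k.2 then EuclideanSpace.single k.1 1 else -EuclideanSpace.single k.1 1

theorem norm_vv (k : Fin 4 × Bool) : ‖vv k‖ = 1 := by
  unfold vv
  split_ifs <;> simp

/-- no configuration of vectors of a half space has the distances of the `± e_i` -/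
theorem no_config (G : Fin 4 × Bool → E4) (h0 : ∀ k, 0 ≤ G k 3) (h1 : ∀ k, ‖G k‖ = 1)
    (h2 : ∀ k l, ‖G k - G l‖ = ‖vv k - vv l‖) : False := by
  have hneg : ∀ i, G (i, false) = -G (i, true) := by
    intro i
    have h3 := h2 (i, false) (i, true)
    have h4 : ‖vv (i, false) - vv (i, true)‖ = 2 := by
      have : vv (i, false) - vv (i, true) = (-2 : ℝ) • EuclideanSpace.single i (1 : ℝ) := by
        unfold vv
        simp only [Bool.false_eq_true, if_false, if_true]
        rw [neg_smul, two_smul]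
        abel
      rw [this, norm_smul]
      simp
    rw [h4] at h3
    have h5 := parallelogram_law_with_norm ℝ (G (i, false)) (G (i, true))
    rw [h3, h1, h1] at h5
    have h6 : ‖G (i, false) + G (i, true)‖ = 0 := by
      have := norm_nonneg (G (i, false) + G (i, true))
      nlinarith
    exact eq_neg_of_add_eq_zero_left (norm_eq_zero.1 h6)
  have hlast : ∀ i, G (i, true) 3 = 0 := by
    intro i
    have a := h0 (i, true)
    have b := h0 (i, false)
    rw [hneg i] at b
    have c : (-G (i, true)) 3 = -(G (i, true) 3) := rfl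
    rw [c] at b
    linarith
  have horth : Orthonormal ℝ (fun i => G (i, true)) := by
    refine ⟨fun i => h1 _, ?_⟩
    intro i j hij
    have h3 := h2 (i, true) (j, true)
    have h4 : ‖vv (i, true) - vv (j, true)‖ ^ 2 = 2 := by
      unfold vv
      simp only [if_true]
      rw [norm_sub_sq_real]
      rw [EuclideanSpace.inner_single_right]
      simp [hij]
      norm_num
    rw [← h3, norm_sub_sq_real, h1, h1] at h4
    show inner ℝ (G (i, true)) (G (j, true)) = 0
    linarith
  have hspan : ∀ w : E4, (∀ i, inner ℝ (G (i, true)) w = 0) → w = 0 := by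
    intro w hw
    have hb : Submodule.span ℝ (Set.range fun i => G (i, true)) = ⊤ :=
      horth.linearIndependent.span_eq_top_of_card_eq_finrank' (by simp)
    have h5 : ∀ x ∈ Submodule.span ℝ (Set.range fun i => G (i, true)), inner ℝ x w = 0 := by
      intro x hx
      induction hx using Submodule.span_induction with
      | mem x hx => obtain ⟨i, rfl⟩ := hx; exact hw i
      | zero => simp
      | add x y _ _ hx hy => rw [inner_add_left, hx, hy, add_zero]
      | smul a x _ hx => rw [inner_smul_left, hx, mul_zero]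
    have h6 := h5 w (by rw [hb]; trivial)
    exact inner_self_eq_zero.1 h6
  have h7 := hspan (EuclideanSpace.single 3 1) (fun i => by
    rw [EuclideanSpace.inner_single_right]
    simp [hlast i])
  have h8 := congrArg (fun w : E4 => w 3) h7
  simp at h8

theorem x0_mem : x0 ∈ Stratum XX 4 := by
  rintro Y _ y ⟨-, r, hr0, hrlim, hr⟩ ⟨Z, _, ⟨Φ⟩⟩
  -- the isometric copy of `ℝ⁴` through `y`
  set u0 : E4 := (Φ y).fst with hu0
  set z0 : Z := (Φ y).snd with hz0
  let T : E4 → Y := fun v => Φ.symm (WithLp.toLp 2 (u0 + v, z0))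
  have hT : ∀ v w, dist (T v) (T w) = ‖v - w‖ := by
    intro v w
    have h1 : dist (T v) (T w) = dist (WithLp.toLp 2 (u0 + v, z0) : WithLp 2 (E4 × Z))
        (WithLp.toLp 2 (u0 + w, z0)) := Φ.symm.isometry.dist_eq _ _
    rw [h1, wdist]
    show √(dist (u0 + v) (u0 + w) ^ 2 + dist z0 z0 ^ 2) = _
    rw [dist_self, dist_add_left, dist_eq_norm]
    simp
  have hT0 : T 0 = y := by
    show Φ.symm (WithLp.toLp 2 (u0 + 0, z0)) = y
    rw [add_zero]
    have : (WithLp.toLp 2 (u0, z0) : WithLp 2 (E4 × Z)) = Φ y := rfl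
    rw [this, IsometryEquiv.symm_apply_apply]
  have h3 : (0 : ℝ) < √3 := by positivity
  have h3' : √3 ≤ 2 := by
    rw [Real.sqrt_le_left (by norm_num)]; norm_num
  have h31 : 1 ≤ √3 := by
    rw [Real.one_le_sqrt]; norm_num
  -- approximate configurations
  have hconf : ∀ m : ℕ, ∃ G : Fin 4 × Bool → E4, (∀ k, 0 ≤ G k 3) ∧
      (∀ k, |‖G k‖ - 1| ≤ 4 * (1 / ((m : ℝ) + 1))) ∧
      ∀ k l, |‖G k - G l‖ - ‖vv k - vv l‖| ≤ 4 * (1 / ((m : ℝ) + 1)) := by
    intro m
    set η : ℝ := 1 / ((m : ℝ) + 1) with hη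
    have hη0 : 0 < η := by rw [hη]; positivity
    have hη1 : η ≤ 1 := by
      rw [hη, div_le_one (by positivity)]
      have : (0 : ℝ) ≤ m := Nat.cast_nonneg m
      linarith
    have ev1 := hr 3 (by norm_num) η hη0
    have ev2 : ∀ᶠ n in atTop, r n < η / 72 :=
      hrlim.eventually (gt_mem_nhds (by positivity))
    obtain ⟨n, ⟨f, hf0, hf1, hf2⟩, hn⟩ := (ev1.and ev2).exists
    have hrn := hr0 n
    set ρ := r n with hρ
    have hpt : ∀ k, ∃ a : XX, dist a x0 < 3 * ρ ∧ dist (f a) (T (vv k)) < η := by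
      intro k
      refine hf2 _ ?_
      rw [← hT0, hT, sub_zero, norm_vv]
      linarith
    choose a ha1 ha2 using hpt
    set c := (√3 * ρ)⁻¹ with hc
    have hc0 : 0 < c := by rw [hc]; positivity
    have hcr : c * (√3 * ρ) = 1 := by rw [hc]; exact inv_mul_cancel₀ (by positivity)
    -- distances in `XX`
    have hx0 : dist x0 x0 < 3 * ρ := by rw [dist_self]; positivity
    have hdist : ∀ p q : XX, dist p x0 < 3 * ρ → dist q x0 < 3 * ρ →
        |c * ‖tc p.1 - tc q.1‖ - dist p q / ρ| ≤ η := by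
      intro p q hp hq
      have hp' := ang_le_dist p.1
      have hq' := ang_le_dist q.1
      have e1' : dist p.1 p0 < 3 * ρ := hp
      have e2' : dist q.1 p0 < 3 * ρ := hq
      have b1 : √3 * dist p.1 p0 ≤ 6 * ρ := by
        calc √3 * dist p.1 p0 ≤ 2 * dist p.1 p0 := mul_le_mul_of_nonneg_right h3' dist_nonneg
          _ ≤ 6 * ρ := by linarith
      have b2 : √3 * dist q.1 p0 ≤ 6 * ρ := by
        calc √3 * dist q.1 p0 ≤ 2 * dist q.1 p0 := mul_le_mul_of_nonneg_right h3' dist_nonneg
          _ ≤ 6 * ρ := by linarith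
      have hd := tc_dist p.1 q.1 (ρ := 6 * ρ) (by linarith) (hp'.1.trans b1)
        (hp'.2.trans b1) (hq'.1.trans b2) (hq'.2.trans b2)
      have h5 : c * ‖tc p.1 - tc q.1‖ - dist p q / ρ =
          c * (‖tc p.1 - tc q.1‖ - √3 * dist p.1 q.1) := by
        have : dist p q / ρ = c * (√3 * dist p.1 q.1) := by
          rw [hc]
          have : dist p q = dist p.1 q.1 := rfl
          rw [this]
          field_simp
        rw [this]; ring
      rw [h5, abs_mul, abs_of_pos hc0]
      calc c * |‖tc p.1 - tc q.1‖ - √3 * dist p.1 q.1| ≤ c * (2 * (6 * ρ) ^ 2) := by gcongr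
        _ = (c * (√3 * ρ)) * (72 * ρ / √3) := by field_simp; ring
        _ = 72 * ρ / √3 := by rw [hcr, one_mul]
        _ ≤ 72 * ρ := div_le_self (by positivity) h31
        _ ≤ η := by linarith
    refine ⟨fun k => c • tc (a k).1, ?_, ?_, ?_⟩
    · intro k
      have : (c • tc (a k).1) 3 = c * (a k).1.a 2 := rfl
      rw [this]
      exact mul_nonneg hc0.le (a k).2
    · intro k
      have g1 := hdist (a k) x0 (ha1 k) hx0
      have g2 := hf1 (a k) x0 (ha1 k) hx0
      have g3 : x0.1 = p0 := rfl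
      rw [g3, tc_p0, sub_zero] at g1
      rw [hf0] at g2
      have g4 : |dist (f (a k)) y - 1| ≤ η := by
        have g5 : dist (T (vv k)) y = 1 := by rw [← hT0, hT, sub_zero, norm_vv]
        rw [← g5]
        refine (abs_dist_sub_le _ _ _).trans (ha2 k).le
      have g6 : ‖c • tc (a k).1‖ = c * ‖tc (a k).1‖ := by
        rw [norm_smul, Real.norm_of_nonneg hc0.le]
      dsimp only
      rw [g6]
      have t1 := abs_le.1 g1
      have t2 := abs_lt.1 g2
      have t3 := abs_le.1 g4
      rw [abs_le]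
      constructor <;> linarith [t1.1, t1.2, t2.1, t2.2, t3.1, t3.2]
    · intro k l
      have g1 := hdist (a k) (a l) (ha1 k) (ha1 l)
      have g2 := hf1 (a k) (a l) (ha1 k) (ha1 l)
      have g4 : |dist (f (a k)) (f (a l)) - ‖vv k - vv l‖| ≤ 2 * η := by
        rw [← hT]
        have k1 := abs_dist_sub_le (f (a k)) (T (vv k)) (f (a l))
        have k2 := abs_dist_sub_le (f (a l)) (T (vv l)) (T (vv k))
        rw [dist_comm (f (a l)) (T (vv k)), dist_comm (T (vv l)) (T (vv k))] at k2
        have k3 := ha2 k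
        have k4 := ha2 l
        have t1 := abs_le.1 k1
        have t2 := abs_le.1 k2
        rw [abs_le]
        constructor <;> linarith [t1.1, t1.2, t2.1, t2.2]
      have g6 : ‖c • tc (a k).1 - c • tc (a l).1‖ = c * ‖tc (a k).1 - tc (a l).1‖ := by
        rw [← smul_sub, norm_smul, Real.norm_of_nonneg hc0.le]
      dsimp only
      rw [g6]
      have t1 := abs_le.1 g1
      have t2 := abs_lt.1 g2
      have t3 := abs_le.1 g4
      rw [abs_le]
      constructor <;> linarith [t1.1, t1.2, t2.1, t2.2, t3.1, t3.2]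
  choose G hG0 hG1 hG2 using hconf
  -- compactness
  have hmem : ∀ m, G m ∈ closedBall (0 : Fin 4 × Bool → E4) 5 := by
    intro m
    rw [mem_closedBall_zero_iff, pi_norm_le_iff_of_nonneg (by norm_num)]
    intro k
    have h5 := (abs_le.1 (hG1 m k)).2
    have h6 : 1 / ((m : ℝ) + 1) ≤ 1 := by
      rw [div_le_one (by positivity)]
      have : (0 : ℝ) ≤ m := Nat.cast_nonneg m
      linarith
    linarith
  obtain ⟨Ginf, -, φ, hφ, hlim⟩ := (isCompact_closedBall (0 : Fin 4 × Bool → E4) 5).tendsto_subseq hmem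
  have hlimk : ∀ k, Tendsto (fun n => G (φ n) k) atTop (𝓝 (Ginf k)) := fun k =>
    (tendsto_pi_nhds.1 hlim k)
  have heps : Tendsto (fun n => 4 * (1 / (((φ n : ℕ) : ℝ) + 1))) atTop (𝓝 0) := by
    have h5 := (tendsto_one_div_add_atTop_nhds_zero_nat (𝕜 := ℝ)).comp hφ.tendsto_atTop
    have h6 := h5.const_mul 4
    rw [mul_zero] at h6
    exact h6
  refine no_config Ginf ?_ ?_ ?_
  · intro k
    have h5 : Tendsto (fun n => G (φ n) k 3) atTop (𝓝 (Ginf k 3)) := by
      have hc : Continuous fun w : E4 => w 3 := by fun_prop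
      exact (hc.tendsto _).comp (hlimk k)
    exact ge_of_tendsto' h5 fun n => hG0 _ k
  · intro k
    have h5 : Tendsto (fun n => |‖G (φ n) k‖ - 1|) atTop (𝓝 |‖Ginf k‖ - 1|) :=
      (((hlimk k).norm).sub_const 1).abs
    have h6 := le_of_tendsto_of_tendsto' h5 heps fun n => hG1 _ k
    have h7 := abs_nonneg (‖Ginf k‖ - 1)
    have h8 := abs_eq_zero.1 (le_antisymm h6 h7)
    linarith
  · intro k l
    have h5 : Tendsto (fun n => |‖G (φ n) k - G (φ n) l‖ - ‖vv k - vv l‖|) atTop
        (𝓝 |‖Ginf k - Ginf l‖ - ‖vv k - vv l‖|) :=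
      ((((hlimk k).sub (hlimk l)).norm).sub_const _).abs
    have h6 := le_of_tendsto_of_tendsto' h5 heps fun n => hG2 _ k l
    have h7 := abs_nonneg (‖Ginf k - Ginf l‖ - ‖vv k - vv l‖)
    have h8 := abs_eq_zero.1 (le_antisymm h6 h7)
    linarith

theorem S_K4_holds : S_K4 := ⟨x0, subset_closure ⟨x0_mem, x0_not_mem⟩⟩

end Pool.Agent.W342.RCD
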