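import Mathlib

/-! Uniformly distributed measures on a compact metric space are proportional -/

set_option autoImplicit false

open MeasureTheory Set Filter Topology Metric
open scoped ENNReal NNReal BoundedContinuousFunction

namespace Pool.Agent.W342.RCD

variable {X : Type*} [MetricSpace X] [CompactSpace X] [MeasurableSpace X] [BorelSpace X]

theorem int_left (μ ν : Measure X) [IsFiniteMeasure μ] [IsFiniteMeasure ν] (r h : ℝ)
    (hν : ∀ x, ν.real (ball x r) = h) (f : X → ℝ) (hf : Continuous f) :
    Integrable ({p : X × X | dist p.1 p.2 < r}.indicator (fun p => f p.1)) (μ.prod ν) ∧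
    ∫ p, {p : X × X | dist p.1 p.2 < r}.indicator (fun p => f p.1) p ∂(μ.prod ν) =
      h * ∫ x, f x ∂μ := by
  have hS : MeasurableSet {p : X × X | dist p.1 p.2 < r} :=
    measurableSet_lt (continuous_dist.measurable) measurable_const
  have hint : Integrable (fun p : X × X => f p.1) (μ.prod ν) :=
    (hf.comp continuous_fst).integrable_of_hasCompactSupport (HasCompactSupport.of_compactSpace _)
  refine ⟨hint.indicator hS, ?_⟩
  rw [integral_prod _ (hint.indicator hS)]
  have h1 : ∀ x, ∫ y, {p : X × X | dist p.1 p.2 < r}.indicator (fun p => f p.1) (x, y) ∂ν =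
      h * f x := by
    intro x
    have h2 : ∀ y, {p : X × X | dist p.1 p.2 < r}.indicator (fun p => f p.1) (x, y) =
        (ball x r).indicator (fun _ => f x) y := by
      intro y
      by_cases hy : dist x y < r
      · rw [indicator_of_mem (show (x, y) ∈ {p : X × X | dist p.1 p.2 < r} from hy),
          indicator_of_mem (by rwa [mem_ball, dist_comm])]
      · rw [indicator_of_notMem (show (x, y) ∉ {p : X × X | dist p.1 p.2 < r} from hy),
          indicator_of_notMem (by rwa [mem_ball, dist_comm])]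
    simp only [h2]
    rw [integral_indicator measurableSet_ball, setIntegral_const, hν x, smul_eq_mul]
  simp only [h1]
  rw [integral_const_mul]

theorem int_right (μ ν : Measure X) [IsFiniteMeasure μ] [IsFiniteMeasure ν] (r g : ℝ)
    (hμ : ∀ x, μ.real (ball x r) = g) (f : X → ℝ) (hf : Continuous f) :
    Integrable ({p : X × X | dist p.1 p.2 < r}.indicator (fun p => f p.2)) (μ.prod ν) ∧
    ∫ p, {p : X × X | dist p.1 p.2 < r}.indicator (fun p => f p.2) p ∂(μ.prod ν) =
      g * ∫ x, f x ∂ν := by
  have hS : MeasurableSet {p : X × X | dist p.1 p.2 < r} :=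
    measurableSet_lt (continuous_dist.measurable) measurable_const
  have hint : Integrable (fun p : X × X => f p.2) (μ.prod ν) :=
    (hf.comp continuous_snd).integrable_of_hasCompactSupport (HasCompactSupport.of_compactSpace _)
  refine ⟨hint.indicator hS, ?_⟩
  rw [integral_prod_symm _ (hint.indicator hS)]
  have h1 : ∀ y, ∫ x, {p : X × X | dist p.1 p.2 < r}.indicator (fun p => f p.2) (x, y) ∂μ =
      g * f y := by
    intro y
    have h2 : ∀ x, {p : X × X | dist p.1 p.2 < r}.indicator (fun p => f p.2) (x, y) =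
        (ball y r).indicator (fun _ => f y) x := by
      intro x
      by_cases hy : dist x y < r
      · rw [indicator_of_mem (show (x, y) ∈ {p : X × X | dist p.1 p.2 < r} from hy),
          indicator_of_mem (by rwa [mem_ball])]
      · rw [indicator_of_notMem (show (x, y) ∉ {p : X × X | dist p.1 p.2 < r} from hy),
          indicator_of_notMem (by rwa [mem_ball])]
    simp only [h2]
    rw [integral_indicator measurableSet_ball, setIntegral_const, hμ y, smul_eq_mul]
  simp only [h1]
  rw [integral_const_mul]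

theorem unif_int (μ ν : Measure X) [IsFiniteMeasure μ] [IsFiniteMeasure ν]
    (hμ : ∀ r x y, μ (ball x r) = μ (ball y r)) (hν : ∀ r x y, ν (ball x r) = ν (ball y r))
    (hν0 : ∀ r > 0, ∀ x, ν (ball x r) ≠ 0) (f : X → ℝ) (hf : Continuous f) :
    (∫ x, f x ∂μ) * ν.real univ = (∫ x, f x ∂ν) * μ.real univ := by
  rcases isEmpty_or_nonempty X with hX | ⟨⟨x0⟩⟩
  · simp [Measure.eq_zero_of_isEmpty]
  refine eq_of_forall_dist_le fun ε hε => ?_
  set m := μ.real univ with hm
  set n := ν.real univ with hn
  have hm0 : 0 ≤ m := measureReal_nonneg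
  have hn0 : 0 ≤ n := measureReal_nonneg
  -- uniform continuity
  have huc := CompactSpace.uniformContinuous_of_continuous hf
  obtain ⟨r, hr, hrf⟩ := Metric.uniformContinuous_iff.1 huc (ε / (m * n + 1)) (by positivity)
  set h := ν.real (ball x0 r) with hh
  set g := μ.real (ball x0 r) with hg
  have hνr : ∀ x, ν.real (ball x r) = h := fun x => by
    rw [hh, Measure.real, Measure.real, hν r x x0]
  have hμr : ∀ x, μ.real (ball x r) = g := fun x => by
    rw [hg, Measure.real, Measure.real, hμ r x x0]
  have hh0 : 0 < h := by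
    rw [hh, Measure.real]
    exact ENNReal.toReal_pos (hν0 r hr x0) (measure_ne_top _ _)
  obtain ⟨i1, e1⟩ := int_left μ ν r h hνr f hf
  obtain ⟨i2, e2⟩ := int_right μ ν r g hμr f hf
  obtain ⟨i3, e3⟩ := int_left μ ν r h hνr (fun _ => 1) continuous_const
  obtain ⟨-, e4⟩ := int_right μ ν r g hμr (fun _ => 1) continuous_const
  rw [integral_const, smul_eq_mul, mul_one] at e3 e4
  have e5 : h * m = g * n := by rw [hm, hn, ← e3, ← e4]
  have key : |h * (∫ x, f x ∂μ) - g * (∫ x, f x ∂ν)| ≤ (ε / (m * n + 1)) * (h * m) := by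
    rw [← e1, ← e2, ← integral_sub i1 i2, ← Real.norm_eq_abs]
    refine (norm_integral_le_integral_norm _).trans ?_
    rw [hm, ← e3, ← integral_const_mul]
    refine integral_mono (i1.sub i2).norm (i3.const_mul _) fun p => ?_
    dsimp only
    by_cases hp : p ∈ {p : X × X | dist p.1 p.2 < r}
    · rw [indicator_of_mem hp, indicator_of_mem hp, indicator_of_mem hp, mul_one, ← dist_eq_norm]
      exact (hrf hp).le
    · rw [indicator_of_notMem hp, indicator_of_notMem hp, indicator_of_notMem hp]
      simp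
  rw [Real.dist_eq]
  have h1 : h * ((∫ x, f x ∂μ) * n - (∫ x, f x ∂ν) * m) =
      n * (h * (∫ x, f x ∂μ) - g * (∫ x, f x ∂ν)) := by
    linear_combination (-(∫ x, f x ∂ν)) * e5
  have h2 : h * |(∫ x, f x ∂μ) * n - (∫ x, f x ∂ν) * m| ≤ h * ε := by
    rw [← abs_of_pos hh0, ← abs_mul, h1, abs_mul, abs_of_nonneg hn0, abs_of_pos hh0]
    calc n * |h * (∫ x, f x ∂μ) - g * (∫ x, f x ∂ν)| ≤ n * ((ε / (m * n + 1)) * (h * m)) := by
          gcongr
      _ = h * (ε * (m * n / (m * n + 1))) := by ring
      _ ≤ h * (ε * 1) := by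
          gcongr
          rw [div_le_one (by positivity)]
          linarith
      _ = h * ε := by ring
  exact le_of_mul_le_mul_left h2 hh0

theorem unif_prop (μ ν : Measure X) [IsFiniteMeasure μ] [IsFiniteMeasure ν]
    (hμ : ∀ r x y, μ (ball x r) = μ (ball y r)) (hν : ∀ r x y, ν (ball x r) = ν (ball y r))
    (hμ0 : μ ≠ 0) (hν0 : ∀ r > 0, ∀ x, ν (ball x r) ≠ 0) :
    ∃ c : ℝ≥0∞, c ≠ 0 ∧ c ≠ ∞ ∧ μ = c • ν := by
  have hμ1 : μ univ ≠ 0 := by simpa using hμ0
  have hX : Nonempty X := by
    by_contra h
    rw [not_nonempty_iff] at h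
    exact hμ0 (Measure.eq_zero_of_isEmpty μ)
  obtain ⟨x0⟩ := hX
  have hν1 : ν univ ≠ 0 := fun h => hν0 1 one_pos x0 (measure_mono_null (subset_univ _) h)
  have hn : 0 < ν.real univ := ENNReal.toReal_pos hν1 (measure_ne_top _ _)
  have hm : 0 < μ.real univ := ENNReal.toReal_pos hμ1 (measure_ne_top _ _)
  refine ⟨ENNReal.ofReal (μ.real univ / ν.real univ), ?_, ENNReal.ofReal_ne_top, ?_⟩
  · rw [Ne, ENNReal.ofReal_eq_zero, not_le]
    positivity
  · haveI : IsFiniteMeasure (ENNReal.ofReal (μ.real univ / ν.real univ) • ν) :=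
      Measure.smul_finite ν ENNReal.ofReal_ne_top
    refine ext_of_forall_integral_eq_of_IsFiniteMeasure fun f => ?_
    rw [integral_smul_measure, ENNReal.toReal_ofReal (by positivity), smul_eq_mul,
      div_mul_eq_mul_div, eq_div_iff hn.ne', unif_int μ ν hμ hν hν0 f f.continuous, mul_comm]

end Pool.Agent.W342.RCD
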