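import Pool.Agent.W553.RCD.Stmts
import Pool.Agent.W342.RCD.K5A

/-! The isometries of `M`; both measures are uniformly distributed -/

set_option autoImplicit false

open MeasureTheory Set Filter Topology Metric
open scoped ENNReal NNReal

namespace Pool.Agent.W342.RCD

open Pool.Agent.W553.RCD

/-- the action of pairs of linear isometries -/
noncomputable def act (O₁ O₂ : E3 ≃ₗᵢ[ℝ] E3) : M ≃ᵢ M where
  toFun p := ⟨O₁ p.a, O₂ p.b, by rw [O₁.norm_map, p.ha], by rw [O₂.norm_map, p.hb]⟩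
  invFun p := ⟨O₁.symm p.a, O₂.symm p.b, by rw [O₁.symm.norm_map, p.ha],
    by rw [O₂.symm.norm_map, p.hb]⟩
  left_inv p := by ext1 <;> simp
  right_inv p := by ext1 <;> simp
  isometry_toFun := by
    refine Isometry.of_dist_eq fun p q => ?_
    rw [M.dist_def, M.dist_def]
    have h1 : ang (O₁ p.a) (O₁ q.a) = ang p.a q.a := O₁.toLinearIsometry.angle_map p.a q.a
    have h2 : ang (O₂ p.b) (O₂ q.b) = ang p.b q.b := O₂.toLinearIsometry.angle_map p.b q.b
    show √((ang (O₁ p.a) (O₁ q.a)) ^ 2 + (ang (O₂ p.b) (O₂ q.b)) ^ 2) / √3 = _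
    rw [h1, h2]

theorem act_trans (p q : M) : ∃ O₁ O₂ : E3 ≃ₗᵢ[ℝ] E3, act O₁ O₂ p = q := by
  refine ⟨Submodule.reflection (Submodule.span ℝ {p.a - q.a})ᗮ,
    Submodule.reflection (Submodule.span ℝ {p.b - q.b})ᗮ, ?_⟩
  refine M.ext ?_ ?_
  · exact Submodule.reflection_sub (by rw [p.ha, q.ha])
  · exact Submodule.reflection_sub (by rw [p.hb, q.hb])

theorem haus_ball (d r : ℝ) (p q : M) : μH[d] (ball p r) = μH[d] (ball q r) := by
  obtain ⟨O₁, O₂, h⟩ := act_trans p q
  rw [← h, ← IsometryEquiv.image_ball, IsometryEquiv.hausdorffMeasure_image]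

theorem measurable_nrm : Measurable nrm := by
  unfold nrm
  refine Measurable.ite (measurableSet_singleton 0) measurable_const ?_
  exact (measurable_norm.inv).smul measurable_id

theorem measurableEmbedding_toProd : MeasurableEmbedding M.toProd := by
  refine M.isEmbedding_toProd.measurableEmbedding ?_
  rw [M.range_toProd]
  exact (isClosed_sphere.prod isClosed_sphere).measurableSet

theorem measurable_prj : Measurable prj := by
  rw [← measurableEmbedding_toProd.measurable_comp_iff]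
  exact (measurable_nrm.comp measurable_fst).prodMk (measurable_nrm.comp measurable_snd)

theorem nrm_map (O : E3 ≃ₗᵢ[ℝ] E3) {y : E3} (hy : y ≠ 0) : nrm (O y) = O (nrm y) := by
  have h1 : O y ≠ 0 := by
    intro h
    exact hy (by simpa using h)
  unfold nrm
  rw [if_neg hy, if_neg h1, O.norm_map, map_smul]

theorem prj_map (O₁ O₂ : E3 ≃ₗᵢ[ℝ] E3) {y : E3 × E3} (h1 : y.1 ≠ 0) (h2 : y.2 ≠ 0) :
    prj (O₁ y.1, O₂ y.2) = act O₁ O₂ (prj y) :=
  M.ext (nrm_map O₁ h1) (nrm_map O₂ h2)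

theorem ae_ne_zero : ∀ᵐ y : E3 × E3, y.1 ≠ 0 ∧ y.2 ≠ 0 := by
  have h0 : (volume : Measure E3) {0} = 0 := measure_singleton 0
  have h1 : (volume : Measure (E3 × E3)) ({0} ×ˢ univ) = 0 := by
    rw [Measure.volume_eq_prod, Measure.prod_prod, h0, zero_mul]
  have h2 : (volume : Measure (E3 × E3)) (univ ×ˢ {0}) = 0 := by
    rw [Measure.volume_eq_prod, Measure.prod_prod, h0, mul_zero]
  have h3 : ∀ᵐ y : E3 × E3, y ∉ ({0} ×ˢ univ : Set (E3 × E3)) := measure_eq_zero_iff_ae_notMem.1 h1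
  have h4 : ∀ᵐ y : E3 × E3, y ∉ (univ ×ˢ {0} : Set (E3 × E3)) := measure_eq_zero_iff_ae_notMem.1 h2
  filter_upwards [h3, h4] with y hy1 hy2
  exact ⟨fun h => hy1 ⟨h, mem_univ _⟩, fun h => hy2 ⟨mem_univ _, h⟩⟩

theorem m0_apply {s : Set M} (hs : MeasurableSet s) :
    m0 s = volume (prj ⁻¹' s ∩ ball (0 : E3) 1 ×ˢ ball (0 : E3) 1) := by
  rw [m0, Measure.map_apply measurable_prj hs, Measure.restrict_apply (measurable_prj hs)]

theorem m0_preimage (O₁ O₂ : E3 ≃ₗᵢ[ℝ] E3) {s : Set M} (hs : MeasurableSet s) :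
    m0 (act O₁ O₂ ⁻¹' s) = m0 s := by
  have hs' : MeasurableSet (act O₁ O₂ ⁻¹' s) := (act O₁ O₂).continuous.measurable hs
  rw [m0_apply hs, m0_apply hs']
  have hmp : MeasurePreserving (Prod.map O₁ O₂) (volume : Measure (E3 × E3)) volume :=
    O₁.measurePreserving.prod O₂.measurePreserving
  have hB : Prod.map O₁ O₂ ⁻¹' (ball (0 : E3) 1 ×ˢ ball (0 : E3) 1) =
      ball (0 : E3) 1 ×ˢ ball (0 : E3) 1 := by
    ext y
    simp [Prod.map]
  rw [← hmp.measure_preimage (((measurable_prj hs).inter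
    (measurableSet_ball.prod measurableSet_ball)).nullMeasurableSet)]
  refine measure_congr ?_
  filter_upwards [ae_ne_zero] with y hy
  refine propext ?_
  show (prj y ∈ act O₁ O₂ ⁻¹' s ∧ y ∈ ball (0 : E3) 1 ×ˢ ball (0 : E3) 1) ↔
    (prj (O₁ y.1, O₂ y.2) ∈ s ∧ y ∈ Prod.map O₁ O₂ ⁻¹' (ball (0 : E3) 1 ×ˢ ball (0 : E3) 1))
  rw [hB, prj_map O₁ O₂ hy.1 hy.2]
  rfl

theorem m0_ball (r : ℝ) (p q : M) : m0 (ball p r) = m0 (ball q r) := by
  obtain ⟨O₁, O₂, h⟩ := act_trans p q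
  rw [← h, ← m0_preimage O₁ O₂ (s := ball (act O₁ O₂ p) r) measurableSet_ball,
    (act O₁ O₂).isometry.preimage_ball]

instance m0_finite : IsFiniteMeasure m0 := by
  have : IsFiniteMeasure ((volume : Measure (E3 × E3)).restrict
      (ball (0 : E3) 1 ×ˢ ball (0 : E3) 1)) := by
    constructor
    rw [Measure.restrict_apply_univ, Measure.volume_eq_prod, Measure.prod_prod]
    exact ENNReal.mul_lt_top measure_ball_lt_top measure_ball_lt_top
  unfold m0
  infer_instance

theorem m0_univ : m0 univ ≠ 0 := by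
  rw [m0_apply MeasurableSet.univ, preimage_univ, univ_inter, Measure.volume_eq_prod,
    Measure.prod_prod]
  exact mul_ne_zero (measure_ball_pos _ _ one_pos).ne' (measure_ball_pos _ _ one_pos).ne'

theorem m0_ball_ne (r : ℝ) (hr : 0 < r) (p : M) : m0 (ball p r) ≠ 0 := by
  intro h0
  apply m0_univ
  obtain ⟨t, -, ht⟩ := (isCompact_univ : IsCompact (univ : Set M)).elim_nhds_subcover
    (fun x => ball x r) (fun x _ => ball_mem_nhds x hr)
  refine measure_mono_null ht ?_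
  refine (measure_biUnion_null_iff t.countable_toSet).2 fun x _ => ?_
  rw [m0_ball r x p, h0]

end Pool.Agent.W342.RCD
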