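import Pool.Agent.W342.RCD.K5B

/-! The Hausdorff measure of `M` is finite and positive -/

set_option autoImplicit false

open MeasureTheory Set Filter Topology Metric
open scoped ENNReal NNReal

namespace Pool.Agent.W342.RCD

open Pool.Agent.W553.RCD

theorem haus_pi : (μH[((4 : ℕ) : ℝ)] : Measure (Fin 4 → ℝ)) = volume := by
  have := hausdorffMeasure_pi_real (ι := Fin 4)
  rwa [Fintype.card_fin] at this

/-- coordinates -/
noncomputable def crd (p : M) : Fin 4 → ℝ := ![p.a 0, p.a 1, p.b 0, p.b 1]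

theorem abs_coord_le (v : E3) (i : Fin 3) : |v i| ≤ ‖v‖ := by
  have := PiLp.norm_apply_le v i
  simpa using this

theorem crd_lip : LipschitzWith (Real.toNNReal √3) crd := by
  refine LipschitzWith.of_dist_le_mul fun p q => ?_
  rw [Real.coe_toNNReal _ (Real.sqrt_nonneg _)]
  refine le_trans ?_ (M.norm_sub_le p q)
  have h1 : ‖p.a - q.a‖ ≤ ‖p.toProd - q.toProd‖ := norm_fst_le (p.toProd - q.toProd)
  have h2 : ‖p.b - q.b‖ ≤ ‖p.toProd - q.toProd‖ := norm_snd_le (p.toProd - q.toProd)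
  rw [dist_pi_le_iff (norm_nonneg _)]
  intro i
  rw [Real.dist_eq]
  fin_cases i
  · exact (abs_coord_le (p.a - q.a) 0).trans h1
  · exact (abs_coord_le (p.a - q.a) 1).trans h1
  · exact (abs_coord_le (p.b - q.b) 0).trans h2
  · exact (abs_coord_le (p.b - q.b) 1).trans h2

theorem norm_vec {x y z : ℝ} (h : x ^ 2 + y ^ 2 + z ^ 2 = 1) : ‖(!₂[x, y, z] : E3)‖ = 1 := by
  rw [EuclideanSpace.norm_eq, Fin.sum_univ_three]
  simp only [Real.norm_eq_abs, sq_abs, PiLp.toLp_apply, Matrix.cons_val_zero, Matrix.cons_val_one,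
    Matrix.cons_val_two, Matrix.tail_cons, Matrix.head_cons, Matrix.cons_val]
  rw [h, Real.sqrt_one]

theorem ball_sub_range : ball (0 : Fin 4 → ℝ) (1 / 2) ⊆ crd '' univ := by
  intro x hx
  rw [mem_ball_zero_iff, pi_norm_lt_iff (by norm_num)] at hx
  have hsq : ∀ i, x i ^ 2 < 1 / 4 := by
    intro i
    have := hx i
    rw [Real.norm_eq_abs] at this
    have h2 := abs_lt.1 this
    nlinarith
  have ha : x 0 ^ 2 + x 1 ^ 2 + √(1 - x 0 ^ 2 - x 1 ^ 2) ^ 2 = 1 := by
    rw [Real.sq_sqrt (by linarith [hsq 0, hsq 1])]; ring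
  have hb : x 2 ^ 2 + x 3 ^ 2 + √(1 - x 2 ^ 2 - x 3 ^ 2) ^ 2 = 1 := by
    rw [Real.sq_sqrt (by linarith [hsq 2, hsq 3])]; ring
  refine ⟨⟨!₂[x 0, x 1, √(1 - x 0 ^ 2 - x 1 ^ 2)], !₂[x 2, x 3, √(1 - x 2 ^ 2 - x 3 ^ 2)],
    norm_vec ha, norm_vec hb⟩, mem_univ _, ?_⟩
  ext i
  fin_cases i <;> rfl

theorem haus_pos : (μH[((4 : ℕ) : ℝ)] : Measure M) univ ≠ 0 := by
  intro h0
  have h1 := crd_lip.hausdorffMeasure_image_le (d := ((4 : ℕ) : ℝ)) (by positivity) univ
  rw [h0, mul_zero, haus_pi] at h1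
  have h2 := (measure_mono ball_sub_range).trans h1
  exact (measure_ball_pos volume (0 : Fin 4 → ℝ) (by norm_num : (0 : ℝ) < 1 / 2)).ne'
    (le_antisymm h2 zero_le)

/-- spherical coordinates -/
noncomputable def sph (θ φ : ℝ) : E3 :=
  !₂[Real.sin θ * Real.cos φ, Real.sin θ * Real.sin φ, Real.cos θ]

theorem norm_sph (θ φ : ℝ) : ‖sph θ φ‖ = 1 := by
  refine norm_vec ?_
  have h1 := Real.sin_sq_add_cos_sq θ
  have h2 := Real.sin_sq_add_cos_sq φ
  linear_combination h1 + Real.sin θ ^ 2 * h2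

theorem abs_sin_sub (x y : ℝ) : |Real.sin x - Real.sin y| ≤ |x - y| := by
  have := Real.lipschitzWith_sin.dist_le_mul x y
  simpa [Real.dist_eq] using this

theorem abs_cos_sub (x y : ℝ) : |Real.cos x - Real.cos y| ≤ |x - y| := by
  have := Real.lipschitzWith_cos.dist_le_mul x y
  simpa [Real.dist_eq] using this

theorem sph_lip (θ φ θ' φ' c : ℝ) (h1 : |θ - θ'| ≤ c) (h2 : |φ - φ'| ≤ c) :
    ‖sph θ φ - sph θ' φ'‖ ≤ 4 * c := by
  have hc : 0 ≤ c := (abs_nonneg _).trans h1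
  have s1 := (abs_sin_sub θ θ').trans h1
  have s2 := (abs_cos_sub θ θ').trans h1
  have s3 := (abs_sin_sub φ φ').trans h2
  have s4 := (abs_cos_sub φ φ').trans h2
  have e1 : |Real.sin θ * Real.cos φ - Real.sin θ' * Real.cos φ'| ≤ 2 * c := by
    have : Real.sin θ * Real.cos φ - Real.sin θ' * Real.cos φ' =
      (Real.sin θ - Real.sin θ') * Real.cos φ + Real.sin θ' * (Real.cos φ - Real.cos φ') := by ring
    rw [this]
    refine (abs_add_le _ _).trans ?_
    rw [abs_mul, abs_mul]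
    have a1 := Real.abs_cos_le_one φ
    have a2 := Real.abs_sin_le_one θ'
    have a3 := abs_nonneg (Real.sin θ - Real.sin θ')
    have a4 := abs_nonneg (Real.cos φ - Real.cos φ')
    nlinarith [abs_nonneg (Real.cos φ), abs_nonneg (Real.sin θ')]
  have e2 : |Real.sin θ * Real.sin φ - Real.sin θ' * Real.sin φ'| ≤ 2 * c := by
    have : Real.sin θ * Real.sin φ - Real.sin θ' * Real.sin φ' =
      (Real.sin θ - Real.sin θ') * Real.sin φ + Real.sin θ' * (Real.sin φ - Real.sin φ') := by ring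
    rw [this]
    refine (abs_add_le _ _).trans ?_
    rw [abs_mul, abs_mul]
    have a1 := Real.abs_sin_le_one φ
    have a2 := Real.abs_sin_le_one θ'
    have a3 := abs_nonneg (Real.sin θ - Real.sin θ')
    have a4 := abs_nonneg (Real.sin φ - Real.sin φ')
    nlinarith [abs_nonneg (Real.sin φ), abs_nonneg (Real.sin θ')]
  rw [EuclideanSpace.norm_eq, Fin.sum_univ_three]
  refine Real.sqrt_le_iff.2 ⟨by positivity, ?_⟩
  have f1 : (sph θ φ - sph θ' φ') 0 = Real.sin θ * Real.cos φ - Real.sin θ' * Real.cos φ' := rfl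
  have f2 : (sph θ φ - sph θ' φ') 1 = Real.sin θ * Real.sin φ - Real.sin θ' * Real.sin φ' := rfl
  have f3 : (sph θ φ - sph θ' φ') 2 = Real.cos θ - Real.cos θ' := rfl
  rw [f1, f2, f3]
  simp only [Real.norm_eq_abs]
  have g1 := abs_nonneg (Real.sin θ * Real.cos φ - Real.sin θ' * Real.cos φ')
  have g2 := abs_nonneg (Real.sin θ * Real.sin φ - Real.sin θ' * Real.sin φ')
  have g3 := abs_nonneg (Real.cos θ - Real.cos θ')
  nlinarith

/-- parametrisation of `M` -/
noncomputable def par (x : Fin 4 → ℝ) : M :=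
  ⟨sph (x 0) (x 1), sph (x 2) (x 3), norm_sph _ _, norm_sph _ _⟩

theorem par_lip : LipschitzWith 8 par := by
  refine LipschitzWith.of_dist_le_mul fun x y => ?_
  refine (M.dist_le _ _).trans ?_
  have h1 : ∀ i, |x i - y i| ≤ dist x y := fun i => by
    rw [← Real.dist_eq]; exact dist_le_pi_dist x y i
  have h2 := sph_lip (x 0) (x 1) (y 0) (y 1) _ (h1 0) (h1 1)
  have h3 := sph_lip (x 2) (x 3) (y 2) (y 3) _ (h1 2) (h1 3)
  have h4 : ‖(par x).toProd - (par y).toProd‖ ≤ 4 * dist x y := by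
    rw [Prod.norm_def]
    exact max_le h2 h3
  push_cast
  linarith

theorem sph_surj (a : E3) (ha : ‖a‖ = 1) :
    ∃ θ φ : ℝ, |θ| ≤ 4 ∧ |φ| ≤ 4 ∧ sph θ φ = a := by
  have hsum : a 0 ^ 2 + a 1 ^ 2 + a 2 ^ 2 = 1 := by
    have h := EuclideanSpace.norm_sq_eq a
    rw [ha, Fin.sum_univ_three] at h
    simp only [Real.norm_eq_abs, sq_abs] at h
    linarith
  have hpi : Real.pi ≤ 4 := by linarith [Real.pi_lt_d2]
  set z : ℂ := ⟨a 0, a 1⟩ with hz
  have hz2 : ‖z‖ = √(a 0 ^ 2 + a 1 ^ 2) := by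
    rw [Complex.norm_def, Complex.normSq_apply]
    congr 1
    simp only [hz]
    ring
  have h2 : -1 ≤ a 2 ∧ a 2 ≤ 1 := by
    constructor <;> nlinarith [sq_nonneg (a 0), sq_nonneg (a 1)]
  have hsin : Real.sin (Real.arccos (a 2)) = ‖z‖ := by
    rw [Real.sin_arccos, hz2]
    congr 1
    linarith
  refine ⟨Real.arccos (a 2), Complex.arg z, ?_, ?_, ?_⟩
  · rw [abs_of_nonneg (Real.arccos_nonneg _)]
    exact (Real.arccos_le_pi _).trans hpi
  · exact (Complex.abs_arg_le_pi z).trans hpi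
  · ext i
    fin_cases i
    · show Real.sin (Real.arccos (a 2)) * Real.cos (Complex.arg z) = a 0
      rw [hsin, Complex.norm_mul_cos_arg]
    · show Real.sin (Real.arccos (a 2)) * Real.sin (Complex.arg z) = a 1
      rw [hsin, Complex.norm_mul_sin_arg]
    · show Real.cos (Real.arccos (a 2)) = a 2
      exact Real.cos_arccos h2.1 h2.2

theorem haus_fin : (μH[((4 : ℕ) : ℝ)] : Measure M) univ < ∞ := by
  have h1 := par_lip.hausdorffMeasure_image_le (d := ((4 : ℕ) : ℝ)) (by positivity)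
    (closedBall 0 4)
  rw [haus_pi] at h1
  have h2 : (univ : Set M) ⊆ par '' closedBall 0 4 := by
    intro p _
    obtain ⟨θ, φ, h1, h2, h3⟩ := sph_surj p.a p.ha
    obtain ⟨θ', φ', h1', h2', h3'⟩ := sph_surj p.b p.hb
    refine ⟨![θ, φ, θ', φ'], ?_, M.ext h3 h3'⟩
    rw [mem_closedBall_zero_iff, pi_norm_le_iff_of_nonneg (by norm_num)]
    intro i
    rw [Real.norm_eq_abs]
    fin_cases i
    · exact h1
    · exact h2
    · exact h1'
    · exact h2'
  refine ((measure_mono h2).trans h1).trans_lt ?_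
  refine ENNReal.mul_lt_top ?_ measure_closedBall_lt_top
  exact ENNReal.rpow_lt_top_of_nonneg (by positivity) ENNReal.coe_ne_top

theorem S_K5_holds : S_K5 := by
  haveI : IsFiniteMeasure (μH[((4 : ℕ) : ℝ)] : Measure M) := ⟨haus_fin⟩
  exact unif_prop _ m0 (fun r x y => haus_ball _ r x y) (fun r x y => m0_ball r x y)
    (fun h => haus_pos (by rw [h]; rfl)) (fun r hr x => m0_ball_ne r hr x)

end Pool.Agent.W342.RCD
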