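import Pool.Agent.W553.RCD.Defs

/-! Infinitesimal Hilbertianity from the pointwise parallelogram identity of the slopes -/

set_option autoImplicit false

open MeasureTheory Set Filter Topology Metric
open scoped ENNReal NNReal

namespace Pool.Agent.W342.RCD

open Pool.Agent.W553.RCD

variable {X : Type*} [MetricSpace X] [MeasurableSpace X]

/-- the energy of a Lipschitz function -/
noncomputable def En (m : Measure X) (h : X → ℝ) : ℝ≥0∞ := (1 / 2) * ∫⁻ x, Pool.Agent.W553.RCD.slope h x ^ 2 ∂m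

theorem cheeger_le (m : Measure X) (f : X → ℝ) (g : ℕ → X → ℝ)
    (h1 : ∀ n, (∃ L : ℝ≥0, LipschitzWith L (g n)) ∧ MemLp (g n) 2 m)
    (h2 : Tendsto (fun n => eLpNorm (g n - f) 2 m) atTop (𝓝 0)) :
    Cheeger m f ≤ liminf (fun n => En m (g n)) atTop :=
  iInf_le_of_le g (iInf_le_of_le h1 (iInf_le_of_le h2 le_rfl))

theorem cheeger_approx (m : Measure X) (f : X → ℝ) (c : ℝ≥0∞) (hc : Cheeger m f < c) :
    ∃ g : ℕ → X → ℝ, (∀ n, (∃ L : ℝ≥0, LipschitzWith L (g n)) ∧ MemLp (g n) 2 m) ∧
      Tendsto (fun n => eLpNorm (g n - f) 2 m) atTop (𝓝 0) ∧ ∀ n, En m (g n) < c := by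
  unfold Cheeger at hc
  simp only [iInf_lt_iff] at hc
  obtain ⟨g, h1, h2, h3⟩ := hc
  obtain ⟨φ, hφ, hφ2⟩ := extraction_of_frequently_atTop (frequently_lt_of_liminf_lt
    (u := fun n => En m (g n)) (f := atTop) (by isBoundedDefault) h3)
  exact ⟨fun n => g (φ n), fun n => h1 _, h2.comp hφ.tendsto_atTop, hφ2⟩

theorem slope_half (f : X → ℝ) (x : X) : Pool.Agent.W553.RCD.slope (fun y => f y / 2) x =
    Pool.Agent.W553.RCD.slope f x / 2 := by
  unfold Pool.Agent.W553.RCD.slope
  rw [ENNReal.div_eq_inv_mul, ← ENNReal.limsup_const_mul_of_ne_top (by simp)]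
  congr 1
  funext y
  have h1 : |f y / 2 - f x / 2| = 2⁻¹ * |f y - f x| := by
    rw [← sub_div, abs_div, abs_two]; ring
  rw [h1, ENNReal.ofReal_mul (by norm_num), ENNReal.ofReal_inv_of_pos (by norm_num)]
  rw [mul_div_assoc]
  simp

theorem En_half (m : Measure X) (f : X → ℝ) : En m (fun y => f y / 2) = En m f / 4 := by
  unfold En
  simp only [slope_half]
  have h1 : ∀ x, (W553.RCD.slope f x / 2) ^ 2 = 4⁻¹ * W553.RCD.slope f x ^ 2 := by
    intro x
    rw [ENNReal.div_eq_inv_mul, mul_pow]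
    congr 1
    rw [← ENNReal.inv_pow]
    norm_num
  simp only [h1]
  rw [lintegral_const_mul' _ _ (by simp), ENNReal.div_eq_inv_mul]
  rw [mul_left_comm]
  exact (ENNReal.div_eq_inv_mul).symm

theorem cheeger_half (m : Measure X) (f : X → ℝ) :
    4 * Cheeger m f ≤ Cheeger m (fun x => 2 * f x) := by
  refine le_of_forall_gt fun c hc => ?_
  obtain ⟨g, h1, h2, h3⟩ := cheeger_approx m _ c hc
  obtain ⟨c', hc', hc''⟩ := exists_between hc
  obtain ⟨g, h1, h2, h3⟩ := cheeger_approx m _ c' hc'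
  have h4 := cheeger_le m f (fun n x => g n x / 2) (fun n => ?_) ?_
  · have h5 : Cheeger m f ≤ c' / 4 := by
      refine h4.trans ?_
      refine liminf_le_of_frequently_le (Frequently.of_forall fun n => ?_)
      rw [En_half]
      exact ENNReal.div_le_div_right (h3 n).le _
    refine lt_of_le_of_lt ?_ hc''
    calc 4 * Cheeger m f ≤ 4 * (c' / 4) := by gcongr
      _ = c' := ENNReal.mul_div_cancel (by norm_num) (by norm_num)
  · obtain ⟨⟨L, hL⟩, hm⟩ := h1 n
    refine ⟨⟨L, ?_⟩, ?_⟩
    · refine LipschitzWith.of_dist_le_mul fun x y => ?_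
      have := hL.dist_le_mul x y
      rw [Real.dist_eq] at this ⊢
      rw [← sub_div, abs_div, abs_two]
      have h0 := abs_nonneg (g n x - g n y)
      linarith
    · have := hm.const_mul (1 / 2)
      convert this using 1
      funext x
      ring
  · have h5 : ∀ n, eLpNorm ((fun x => g n x / 2) - f) 2 m =
        (1 / 2) * eLpNorm (g n - fun x => 2 * f x) 2 m := by
      intro n
      have h6 : ((fun x => g n x / 2) - f) = (1 / 2 : ℝ) • (g n - fun x => 2 * f x) := by
        funext x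
        simp only [Pi.sub_apply, Pi.smul_apply, smul_eq_mul]
        ring
      rw [h6, eLpNorm_const_smul]
      congr 1
      rw [Real.enorm_eq_ofReal (by norm_num), ENNReal.ofReal_div_of_pos (by norm_num)]
      simp
    simp only [h5]
    have := ENNReal.Tendsto.const_mul h2 (Or.inr (by simp : (1 / 2 : ℝ≥0∞) ≠ ∞))
    rwa [mul_zero] at this

section meas

variable [BorelSpace X]

/-- difference quotients -/
noncomputable def dq (f : X → ℝ) (x y : X) : ℝ≥0∞ := ENNReal.ofReal |f y - f x| / edist y x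

theorem slope_eq_iInf (f : X → ℝ) (x : X) : W553.RCD.slope f x =
    ⨅ n : ℕ, ⨆ y ∈ (ball x (1 / ((n : ℝ) + 1)) ∩ {x}ᶜ : Set X), dq f x y := by
  have hb : (𝓝[≠] x).HasBasis (fun _ : ℕ => True)
      (fun n => ball x (1 / ((n : ℝ) + 1)) ∩ {x}ᶜ) := by
    exact nhdsWithin_hasBasis nhds_basis_ball_inv_nat_succ _
  unfold Pool.Agent.W553.RCD.slope
  rw [hb.limsup_eq_iInf_iSup]
  simp only [iInf_true]
  rfl

theorem measurable_slope {f : X → ℝ} (hf : Continuous f) : Measurable (W553.RCD.slope f) := by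
  have h : W553.RCD.slope f = fun x => ⨅ n : ℕ, ⨆ y ∈ (ball x (1 / ((n : ℝ) + 1)) ∩ {x}ᶜ : Set X),
      dq f x y := funext fun x => slope_eq_iInf f x
  rw [h]
  refine Measurable.iInf fun n => ?_
  refine LowerSemicontinuous.measurable ?_
  intro x c hc
  simp only [lt_iSup_iff] at hc
  obtain ⟨y, ⟨hy1, hy2⟩, hy3⟩ := hc
  have hne : y ≠ x := hy2
  have hcont : ContinuousAt (fun x' => dq f x' y) x := by
    unfold dq
    refine ENNReal.Tendsto.div ?_ (Or.inr ?_) ?_ (Or.inr ENNReal.ofReal_ne_top)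
    · exact (ENNReal.continuous_ofReal.comp (continuous_abs.comp
        (continuous_const.sub hf))).continuousAt
    · exact (edist_pos.2 hne).ne'
    · exact (continuous_const.edist continuous_id).continuousAt
  filter_upwards [hcont.eventually (lt_mem_nhds hy3),
    (continuous_id.dist continuous_const).continuousAt.eventually (gt_mem_nhds
      (show dist x y < 1 / ((n : ℝ) + 1) by rw [dist_comm]; exact hy1)),
    (isOpen_ne (x := y)).mem_nhds hne.symm] with x' h1 h2 h3
  simp only [lt_iSup_iff]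
  exact ⟨y, ⟨by rw [mem_ball, dist_comm]; exact h2, fun h => h3 h.symm⟩, h1⟩

omit [MetricSpace X] [MeasurableSpace X] [BorelSpace X] in
theorem liminf_add_le_liminf (a b : ℕ → ℝ≥0∞) :
    liminf a atTop + liminf b atTop ≤ liminf (fun n => a n + b n) atTop := by
  rw [liminf_eq_iSup_iInf_of_nat, liminf_eq_iSup_iInf_of_nat, liminf_eq_iSup_iInf_of_nat]
  rw [ENNReal.iSup_add_iSup_of_monotone]
  · refine iSup_mono fun n => ?_
    refine le_iInf₂ fun i hi => add_le_add (iInf₂_le i hi) (iInf₂_le i hi)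
  · exact fun i j hij => iInf_mono fun k => iInf_mono' fun hk => ⟨hij.trans hk, le_rfl⟩
  · exact fun i j hij => iInf_mono fun k => iInf_mono' fun hk => ⟨hij.trans hk, le_rfl⟩

theorem infHilbertian_of_ae (m : Measure X)
    (H : ∀ f g : X → ℝ, (∃ L : ℝ≥0, LipschitzWith L f) → (∃ L : ℝ≥0, LipschitzWith L g) →
      ∀ᵐ x ∂m, W553.RCD.slope (f + g) x ^ 2 + W553.RCD.slope (f - g) x ^ 2 =
        2 * W553.RCD.slope f x ^ 2 + 2 * W553.RCD.slope g x ^ 2) : InfHilbertian m := by
  have hE : ∀ f g : X → ℝ, (∃ L : ℝ≥0, LipschitzWith L f) → (∃ L : ℝ≥0, LipschitzWith L g) →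
      En m (f + g) + En m (f - g) = 2 * En m f + 2 * En m g := by
    intro f g hf hg
    have h1 := H f g hf hg
    obtain ⟨L, hL⟩ := hf
    obtain ⟨L', hL'⟩ := hg
    have m1 : Measurable fun x => W553.RCD.slope (f + g) x ^ 2 :=
      (measurable_slope (hL.continuous.add hL'.continuous)).pow_const 2
    have m2 : Measurable fun x => W553.RCD.slope f x ^ 2 :=
      (measurable_slope hL.continuous).pow_const 2
    have h2 : ∫⁻ x, (W553.RCD.slope (f + g) x ^ 2 + W553.RCD.slope (f - g) x ^ 2) ∂m =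
        ∫⁻ x, (2 * W553.RCD.slope f x ^ 2 + 2 * W553.RCD.slope g x ^ 2) ∂m := lintegral_congr_ae h1
    rw [lintegral_add_left m1, lintegral_add_left (m2.const_mul 2),
      lintegral_const_mul' _ _ (by simp), lintegral_const_mul' _ _ (by simp)] at h2
    unfold En
    rw [← mul_add, h2]
    ring
  have key : ∀ f g : X → ℝ, MemLp f 2 m → MemLp g 2 m → Cheeger m (f + g) + Cheeger m (f - g) ≤
      2 * Cheeger m f + 2 * Cheeger m g := by
    intro f g hfm hgm
    by_cases hf : Cheeger m f = ∞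
    · rw [hf]; simp
    by_cases hg : Cheeger m g = ∞
    · rw [hg]; simp
    refine ENNReal.le_of_forall_pos_le_add fun ε hε _ => ?_
    have hε' : (0 : ℝ≥0∞) < (ε : ℝ≥0∞) / 4 := by
      refine ENNReal.div_pos ?_ (by simp)
      exact_mod_cast hε.ne'
    obtain ⟨u, hu1, hu2, hu3⟩ := cheeger_approx m f _ (ENNReal.lt_add_right hf hε'.ne')
    obtain ⟨v, hv1, hv2, hv3⟩ := cheeger_approx m g _ (ENNReal.lt_add_right hg hε'.ne')
    have h1 := cheeger_le m (f + g) (fun n => u n + v n) (fun n => by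
        obtain ⟨⟨L, hL⟩, hm⟩ := hu1 n
        obtain ⟨⟨L', hL'⟩, hm'⟩ := hv1 n
        exact ⟨⟨L + L', hL.add hL'⟩, hm.add hm'⟩) (by
        have h := hu2.add hv2
        rw [add_zero] at h
        refine tendsto_of_tendsto_of_tendsto_of_le_of_le tendsto_const_nhds h
          (fun _ => zero_le) fun n => ?_
        have e : u n + v n - (f + g) = (u n - f) + (v n - g) := by abel
        rw [e]
        exact eLpNorm_add_le ((hu1 n).2.sub hfm).1 ((hv1 n).2.sub hgm).1 (by norm_num))
    have h2 := cheeger_le m (f - g) (fun n => u n - v n) (fun n => by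
        obtain ⟨⟨L, hL⟩, hm⟩ := hu1 n
        obtain ⟨⟨L', hL'⟩, hm'⟩ := hv1 n
        exact ⟨⟨L + L', hL.sub hL'⟩, hm.sub hm'⟩) (by
        have h := hu2.add hv2
        rw [add_zero] at h
        refine tendsto_of_tendsto_of_tendsto_of_le_of_le tendsto_const_nhds h
          (fun _ => zero_le) fun n => ?_
        have e : u n - v n - (f - g) = (u n - f) - (v n - g) := by abel
        rw [e]
        exact eLpNorm_sub_le ((hu1 n).2.sub hfm).1 ((hv1 n).2.sub hgm).1 (by norm_num))
    refine (add_le_add h1 h2).trans ?_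
    refine (liminf_add_le_liminf _ _).trans ?_
    refine liminf_le_of_frequently_le (Frequently.of_forall fun n => ?_)
    show En m (u n + v n) + En m (u n - v n) ≤ _
    rw [hE _ _ (hu1 n).1 (hv1 n).1]
    calc 2 * En m (u n) + 2 * En m (v n) ≤ 2 * (Cheeger m f + ε / 4) + 2 * (Cheeger m g + ε / 4) := by
          gcongr
          · exact (hu3 n).le
          · exact (hv3 n).le
      _ = 2 * Cheeger m f + 2 * Cheeger m g + 4 * (ε / 4) := by ring
      _ = _ := by rw [ENNReal.mul_div_cancel (by norm_num) (by norm_num)]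
  intro f g hfm hgm
  refine le_antisymm (key f g hfm hgm) ?_
  have h1 := key (f + g) (f - g) (hfm.add hgm) (hfm.sub hgm)
  have h2 : f + g + (f - g) = fun x => 2 * f x := by
    funext x; simp only [Pi.add_apply, Pi.sub_apply]; ring
  have h3 : f + g - (f - g) = fun x => 2 * g x := by
    funext x; simp only [Pi.add_apply, Pi.sub_apply]; ring
  rw [h2, h3, ← mul_add] at h1
  have h4 := (add_le_add (cheeger_half m f) (cheeger_half m g)).trans h1
  have h5 : 4 * Cheeger m f + 4 * Cheeger m g = 2 * (2 * Cheeger m f + 2 * Cheeger m g) := by ring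
  rw [h5] at h4
  exact (ENNReal.mul_le_mul_iff_right (by norm_num) (by norm_num)).1 h4

end meas

end Pool.Agent.W342.RCD
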