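import Pool.Agent.W342.RCD.K6A
import Pool.Agent.W342.RCD.K5C

/-! Slopes on the half product of spheres at points of differentiability -/

set_option autoImplicit false

open MeasureTheory Set Filter Topology Metric Asymptotics
open scoped ENNReal NNReal

namespace Pool.Agent.W342.RCD

open Pool.Agent.W553.RCD

/-- first order expansion of `f` at `z` with tangential gradient `(v₁, v₂)` -/
def HasGrad (f : XX → ℝ) (z : XX) (v₁ v₂ : E3) : Prop :=
  inner ℝ v₁ z.1.a = 0 ∧ inner ℝ v₂ z.1.b = 0 ∧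
  (fun w : XX => f w - f z - (inner ℝ v₁ (w.1.a - z.1.a) + inner ℝ v₂ (w.1.b - z.1.b))) =o[𝓝 z]
    (fun w => dist w z)

theorem HasGrad.add {f g : XX → ℝ} {z : XX} {v₁ v₂ w₁ w₂ : E3} (hf : HasGrad f z v₁ v₂)
    (hg : HasGrad g z w₁ w₂) : HasGrad (f + g) z (v₁ + w₁) (v₂ + w₂) := by
  refine ⟨?_, ?_, ?_⟩
  · rw [inner_add_left, hf.1, hg.1, add_zero]
  · rw [inner_add_left, hf.2.1, hg.2.1, add_zero]
  · refine (hf.2.2.add hg.2.2).congr_left fun w => ?_
    simp only [Pi.add_apply, inner_add_left]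
    ring

theorem HasGrad.sub {f g : XX → ℝ} {z : XX} {v₁ v₂ w₁ w₂ : E3} (hf : HasGrad f z v₁ v₂)
    (hg : HasGrad g z w₁ w₂) : HasGrad (f - g) z (v₁ - w₁) (v₂ - w₂) := by
  refine ⟨?_, ?_, ?_⟩
  · rw [inner_sub_left, hf.1, hg.1, sub_zero]
  · rw [inner_sub_left, hf.2.1, hg.2.1, sub_zero]
  · refine (hf.2.2.sub hg.2.2).congr_left fun w => ?_
    simp only [Pi.sub_apply, inner_sub_left]
    ring

/-- the geodesic of the sphere from `z` in the direction `v ⟂ z` -/
noncomputable def cur (z v : E3) (s : ℝ) : E3 := Real.cos (s * ‖v‖) • z + (Real.sin (s * ‖v‖) / ‖v‖) • v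

theorem norm_cur {z v : E3} (hz : ‖z‖ = 1) (hv : inner ℝ v z = 0) (s : ℝ) : ‖cur z v s‖ = 1 := by
  have h : ‖cur z v s‖ ^ 2 = 1 := by
    rw [cur, norm_add_sq_real, norm_smul, norm_smul, inner_smul_left, inner_smul_right,
      real_inner_comm, hv, hz]
    by_cases h0 : ‖v‖ = 0
    · rw [h0]; simp
    · rw [Real.norm_eq_abs, Real.norm_eq_abs, abs_div, abs_norm, div_mul_cancel₀ _ h0, mul_one,
        sq_abs, sq_abs]
      have := Real.sin_sq_add_cos_sq (s * ‖v‖)
      simp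
  have h0 := norm_nonneg (cur z v s)
  nlinarith

theorem ang_cur {z v : E3} (hz : ‖z‖ = 1) (hv : inner ℝ v z = 0) {s : ℝ} (hs : 0 ≤ s)
    (hs' : s * ‖v‖ ≤ Real.pi) : ang (cur z v s) z = s * ‖v‖ := by
  have h1 : inner ℝ (cur z v s) z = Real.cos (s * ‖v‖) := by
    rw [cur, inner_add_left, inner_smul_left, inner_smul_left, hv, real_inner_self_eq_norm_sq, hz]
    simp
  unfold Pool.Agent.W553.RCD.ang InnerProductGeometry.angle
  rw [h1, norm_cur hz hv, hz, mul_one, div_one, Real.arccos_cos (by positivity) hs']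

theorem inner_cur {z v : E3} (hv : inner ℝ v z = 0) (s : ℝ) :
    inner ℝ v (cur z v s - z) = ‖v‖ * Real.sin (s * ‖v‖) := by
  rw [cur, inner_sub_right, inner_add_right, inner_smul_right, inner_smul_right, hv,
    real_inner_self_eq_norm_sq]
  by_cases h0 : ‖v‖ = 0
  · rw [h0]; simp
  · field_simp
    ring

theorem continuous_cur (z v : E3) : Continuous (cur z v) := by
  unfold cur
  fun_prop

theorem cur_zero (z v : E3) : cur z v 0 = z := by simp [cur]

end Pool.Agent.W342.RCD
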