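import Pool.Agent.W342.RCD.K6B

/-! Slopes on the half product of spheres at points of differentiability -/

set_option autoImplicit false

open MeasureTheory Set Filter Topology Metric Asymptotics
open scoped ENNReal NNReal

namespace Pool.Agent.W342.RCD

open Pool.Agent.W553.RCD

theorem sqrt_ang (w z : M) : √((ang w.a z.a) ^ 2 + (ang w.b z.b) ^ 2) = √3 * dist w z := by
  rw [M.dist_def]; field_simp

theorem inner_le_dist (v₁ v₂ : E3) (w z : M) :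
    |inner ℝ v₁ (w.a - z.a) + inner ℝ v₂ (w.b - z.b)| ≤
      √3 * √(‖v₁‖ ^ 2 + ‖v₂‖ ^ 2) * dist w z := by
  have h1 := abs_real_inner_le_norm v₁ (w.a - z.a)
  have h2 := abs_real_inner_le_norm v₂ (w.b - z.b)
  have h3 := norm_sub_le_ang w.ha z.ha
  have h4 := norm_sub_le_ang w.hb z.hb
  have h5 : ‖v₁‖ * ang w.a z.a + ‖v₂‖ * ang w.b z.b ≤
      √(‖v₁‖ ^ 2 + ‖v₂‖ ^ 2) * √((ang w.a z.a) ^ 2 + (ang w.b z.b) ^ 2) := by
    rw [← Real.sqrt_mul (by positivity)]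
    refine Real.le_sqrt_of_sq_le ?_
    nlinarith [sq_nonneg (‖v₁‖ * ang w.b z.b - ‖v₂‖ * ang w.a z.a)]
  calc |inner ℝ v₁ (w.a - z.a) + inner ℝ v₂ (w.b - z.b)|
      ≤ |inner ℝ v₁ (w.a - z.a)| + |inner ℝ v₂ (w.b - z.b)| := abs_add_le _ _
    _ ≤ ‖v₁‖ * ang w.a z.a + ‖v₂‖ * ang w.b z.b := by
        refine add_le_add (h1.trans ?_) (h2.trans ?_) <;> gcongr
    _ ≤ _ := h5
    _ = _ := by rw [sqrt_ang]; ring

theorem slope_le_of_grad {f : XX → ℝ} {z : XX} {v₁ v₂ : E3} (h : HasGrad f z v₁ v₂) :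
    W553.RCD.slope f z ≤ ENNReal.ofReal (√3 * √(‖v₁‖ ^ 2 + ‖v₂‖ ^ 2)) := by
  refine ENNReal.le_of_forall_pos_le_add fun ε hε _ => ?_
  have h1 := (isLittleO_iff.1 h.2.2) (c := ε) (by exact_mod_cast hε)
  unfold Pool.Agent.W553.RCD.slope
  refine limsup_le_of_le (by isBoundedDefault) ?_
  filter_upwards [mem_nhdsWithin_of_mem_nhds h1, self_mem_nhdsWithin] with w hw hne
  have hne' : w ≠ z := hne
  have h2 : |f w - f z| ≤ (√3 * √(‖v₁‖ ^ 2 + ‖v₂‖ ^ 2) + ε) * dist w z := by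
    have h3 := inner_le_dist v₁ v₂ w.1 z.1
    rw [Real.norm_eq_abs, Real.norm_eq_abs, abs_of_nonneg dist_nonneg] at hw
    have h4 : f w - f z = (inner ℝ v₁ (w.1.a - z.1.a) + inner ℝ v₂ (w.1.b - z.1.b)) +
      (f w - f z - (inner ℝ v₁ (w.1.a - z.1.a) + inner ℝ v₂ (w.1.b - z.1.b))) := by ring
    rw [h4]
    refine (abs_add_le _ _).trans ?_
    have h5 : dist w.1 z.1 = dist w z := rfl
    rw [h5] at h3
    linarith
  have h5 : (0 : ℝ) ≤ √3 * √(‖v₁‖ ^ 2 + ‖v₂‖ ^ 2) := by positivity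
  refine ENNReal.div_le_of_le_mul ?_
  rw [edist_dist]
  have h6 : ENNReal.ofReal (√3 * √(‖v₁‖ ^ 2 + ‖v₂‖ ^ 2)) + (ε : ℝ≥0∞) =
      ENNReal.ofReal (√3 * √(‖v₁‖ ^ 2 + ‖v₂‖ ^ 2) + ε) := by
    rw [ENNReal.ofReal_add h5 (by positivity), ENNReal.ofReal_coe_nnreal]
  rw [h6, ← ENNReal.ofReal_mul (by positivity)]
  exact ENNReal.ofReal_le_ofReal h2

theorem le_slope_of_grad {f : XX → ℝ} {z : XX} {v₁ v₂ : E3} (hz : 0 < z.1.a 2)
    (h : HasGrad f z v₁ v₂) :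
    ENNReal.ofReal (√3 * √(‖v₁‖ ^ 2 + ‖v₂‖ ^ 2)) ≤ W553.RCD.slope f z := by
  by_contra hcon
  rw [not_le] at hcon
  obtain ⟨c, hc1, hc2⟩ := ENNReal.lt_iff_exists_nnreal_btwn.1 hcon
  set V := √(‖v₁‖ ^ 2 + ‖v₂‖ ^ 2) with hV
  have hV2 : V ^ 2 = ‖v₁‖ ^ 2 + ‖v₂‖ ^ 2 := Real.sq_sqrt (by positivity)
  have hV0 : 0 ≤ V := Real.sqrt_nonneg _
  have hcV : (c : ℝ) < √3 * V := by
    rw [← ENNReal.ofReal_coe_nnreal] at hc2
    exact (ENNReal.ofReal_lt_ofReal_iff_of_nonneg c.2).1 hc2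
  have h3 : (0 : ℝ) < √3 := by positivity
  have hVpos : 0 < V := by
    rcases hV0.eq_or_lt with h0 | h0
    · rw [← h0, mul_zero] at hcV
      exact absurd hcV (not_lt.2 c.2)
    · exact h0
  -- eventual bound
  have hev := eventually_lt_of_limsup_lt hc1 (by isBoundedDefault)
  set ε := (√3 * V - c) / 2 with hε
  have hεpos : 0 < ε := by rw [hε]; linarith
  have hrem := (isLittleO_iff.1 h.2.2) hεpos
  -- the curve
  have hnorm1 : ∀ s, ‖cur z.1.a v₁ s‖ = 1 := norm_cur z.1.ha h.1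
  have hnorm2 : ∀ s, ‖cur z.1.b v₂ s‖ = 1 := norm_cur z.1.hb h.2.1
  let γ : ℝ → XX := fun s => if hs : 0 ≤ (cur z.1.a v₁ s) 2 then
    ⟨⟨cur z.1.a v₁ s, cur z.1.b v₂ s, hnorm1 s, hnorm2 s⟩, hs⟩ else z
  have hpos : ∀ᶠ s in 𝓝[>] (0 : ℝ), 0 ≤ (cur z.1.a v₁ s) 2 := by
    have h4 : ContinuousAt (fun s => (cur z.1.a v₁ s) 2) 0 := by
      have := (continuous_cur z.1.a v₁)
      fun_prop
    have h5 := h4.eventually (lt_mem_nhds (show 0 < (cur z.1.a v₁ 0) 2 by rw [cur_zero]; exact hz))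
    exact mem_nhdsWithin_of_mem_nhds (h5.mono fun s hs => hs.le)
  have hsmall : ∀ v : E3, ∀ᶠ s in 𝓝[>] (0 : ℝ), s * ‖v‖ ≤ Real.pi := by
    intro v
    have h4 : ContinuousAt (fun s : ℝ => s * ‖v‖) 0 := by fun_prop
    have h5 := h4.eventually (gt_mem_nhds (show (0 : ℝ) * ‖v‖ < Real.pi by
      rw [zero_mul]; exact Real.pi_pos))
    exact mem_nhdsWithin_of_mem_nhds (h5.mono fun s hs => hs.le)
  have hγ : ∀ᶠ s in 𝓝[>] (0 : ℝ), (γ s).1.a = cur z.1.a v₁ s ∧ (γ s).1.b = cur z.1.b v₂ s ∧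
      dist (γ s) z = s * V / √3 ∧ 0 < s := by
    filter_upwards [hpos, hsmall v₁, hsmall v₂, self_mem_nhdsWithin] with s hs h1 h2 hs0
    have hs0' : 0 < s := hs0
    have e : γ s = ⟨⟨cur z.1.a v₁ s, cur z.1.b v₂ s, hnorm1 s, hnorm2 s⟩, hs⟩ := dif_pos hs
    rw [e]
    refine ⟨rfl, rfl, ?_, hs0'⟩
    show dist (⟨cur z.1.a v₁ s, cur z.1.b v₂ s, hnorm1 s, hnorm2 s⟩ : M) z.1 = _
    rw [M.dist_def]
    dsimp only
    rw [ang_cur z.1.ha h.1 hs0'.le h1, ang_cur z.1.hb h.2.1 hs0'.le h2]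
    congr 1
    have : (s * ‖v₁‖) ^ 2 + (s * ‖v₂‖) ^ 2 = (s * V) ^ 2 := by rw [mul_pow s V, hV2]; ring
    rw [this, Real.sqrt_sq (by positivity)]
  have hγt : Tendsto γ (𝓝[>] (0 : ℝ)) (𝓝[≠] z) := by
    rw [tendsto_nhdsWithin_iff]
    constructor
    · rw [tendsto_iff_dist_tendsto_zero]
      have h4 : Tendsto (fun s : ℝ => s * V / √3) (𝓝[>] (0 : ℝ)) (𝓝 0) := by
        have h5 : ContinuousAt (fun s : ℝ => s * V / √3) 0 := by fun_prop
        have h6 := h5.tendsto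
        simp only [zero_mul, zero_div] at h6
        exact h6.mono_left nhdsWithin_le_nhds
      refine h4.congr' ?_
      filter_upwards [hγ] with s hs
      exact hs.2.2.1.symm
    · filter_upwards [hγ] with s hs
      intro h0
      have h4 : dist (γ s) z = 0 := by
        rw [Set.mem_singleton_iff.1 h0, dist_self]
      rw [hs.2.2.1] at h4
      have : 0 < s * V / √3 := by have := hs.2.2.2; positivity
      exact this.ne' h4
  -- the inequality along the curve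
  have hineq : ∀ᶠ s in 𝓝[>] (0 : ℝ), s⁻¹ • ((‖v₁‖ * Real.sin ((0 + s) * ‖v₁‖) +
      ‖v₂‖ * Real.sin ((0 + s) * ‖v₂‖)) - (‖v₁‖ * Real.sin (0 * ‖v₁‖) +
      ‖v₂‖ * Real.sin (0 * ‖v₂‖))) ≤ (c + ε) * V / √3 := by
    filter_upwards [hγ, hγt.eventually hev, hγt.eventually (mem_nhdsWithin_of_mem_nhds hrem)]
      with s hs h1 h2
    obtain ⟨e1, e2, e3, e4⟩ := hs
    have hd : 0 < dist (γ s) z := by rw [e3]; positivity
    have h5 : |f (γ s) - f z| ≤ c * dist (γ s) z := by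
      rw [edist_dist, ENNReal.div_lt_iff (Or.inl (by
        rw [Ne, ENNReal.ofReal_eq_zero, not_le]; exact hd)) (Or.inl ENNReal.ofReal_ne_top),
        ← ENNReal.ofReal_coe_nnreal, ← ENNReal.ofReal_mul (NNReal.coe_nonneg c)] at h1
      exact ((ENNReal.ofReal_lt_ofReal_iff (by
        by_contra hn
        rw [ENNReal.ofReal_of_nonpos (not_lt.1 hn)] at h1
        exact absurd h1 not_lt_zero)).1 h1).le
    have h2' : |f (γ s) - f z - (inner ℝ v₁ ((γ s).1.a - z.1.a) +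
        inner ℝ v₂ ((γ s).1.b - z.1.b))| ≤ ε * dist (γ s) z := by
      have h6 : ‖f (γ s) - f z - (inner ℝ v₁ ((γ s).1.a - z.1.a) +
        inner ℝ v₂ ((γ s).1.b - z.1.b))‖ ≤ ε * ‖dist (γ s) z‖ := h2
      rwa [Real.norm_eq_abs, Real.norm_eq_abs, abs_of_nonneg dist_nonneg] at h6
    rw [e1, e2, inner_cur h.1, inner_cur h.2.1] at h2'
    have h7 : ‖v₁‖ * Real.sin (s * ‖v₁‖) + ‖v₂‖ * Real.sin (s * ‖v₂‖) ≤
        (c + ε) * (s * V / √3) := by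
      rw [e3] at h5 h2'
      have a1 := (abs_le.1 h5).2
      have a2 := (abs_le.1 h2').1
      linarith
    rw [zero_add, zero_mul, zero_mul, Real.sin_zero, mul_zero, mul_zero, add_zero, sub_zero,
      smul_eq_mul, inv_mul_le_iff₀ e4]
    refine h7.trans (le_of_eq ?_)
    ring
  have hder : HasDerivAt (fun s : ℝ => ‖v₁‖ * Real.sin (s * ‖v₁‖) + ‖v₂‖ * Real.sin (s * ‖v₂‖))
      (V ^ 2) 0 := by
    have h4 : ∀ v : E3, HasDerivAt (fun s : ℝ => ‖v‖ * Real.sin (s * ‖v‖)) (‖v‖ ^ 2) 0 := by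
      intro v
      have h5 : HasDerivAt (fun s : ℝ => s * ‖v‖) ‖v‖ 0 := by
        simpa using (hasDerivAt_id (0 : ℝ)).mul_const ‖v‖
      have h6 := (h5.sin).const_mul ‖v‖
      refine h6.congr_deriv ?_
      rw [zero_mul, Real.cos_zero]
      ring
    rw [hV2]
    exact (h4 v₁).add (h4 v₂)
  have hfin := le_of_tendsto hder.tendsto_slope_zero_right hineq
  have h8 : √3 * V ≤ c + ε := by
    rw [le_div_iff₀ h3] at hfin
    have : V * (√3 * V) ≤ V * (c + ε) := by linarith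
    exact le_of_mul_le_mul_left this hVpos
  rw [hε] at h8
  linarith

theorem slope_of_grad {f : XX → ℝ} {z : XX} {v₁ v₂ : E3} (hz : 0 < z.1.a 2)
    (h : HasGrad f z v₁ v₂) :
    W553.RCD.slope f z = ENNReal.ofReal (√3 * √(‖v₁‖ ^ 2 + ‖v₂‖ ^ 2)) :=
  le_antisymm (slope_le_of_grad h) (le_slope_of_grad hz h)

theorem slope_sq_of_grad {f : XX → ℝ} {z : XX} {v₁ v₂ : E3} (hz : 0 < z.1.a 2)
    (h : HasGrad f z v₁ v₂) :
    W553.RCD.slope f z ^ 2 = ENNReal.ofReal (3 * (‖v₁‖ ^ 2 + ‖v₂‖ ^ 2)) := by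
  rw [slope_of_grad hz h, ← ENNReal.ofReal_pow (by positivity), mul_pow,
    Real.sq_sqrt (by norm_num), Real.sq_sqrt (by positivity)]

theorem parallelogram_of_grad {f g : XX → ℝ} {z : XX} {v₁ v₂ w₁ w₂ : E3} (hz : 0 < z.1.a 2)
    (hf : HasGrad f z v₁ v₂) (hg : HasGrad g z w₁ w₂) :
    W553.RCD.slope (f + g) z ^ 2 + W553.RCD.slope (f - g) z ^ 2 =
      2 * W553.RCD.slope f z ^ 2 + 2 * W553.RCD.slope g z ^ 2 := by
  rw [slope_sq_of_grad hz (hf.add hg), slope_sq_of_grad hz (hf.sub hg), slope_sq_of_grad hz hf,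
    slope_sq_of_grad hz hg, ← ENNReal.ofReal_add (by positivity) (by positivity)]
  have h2 : ∀ x : ℝ, (2 : ℝ≥0∞) * ENNReal.ofReal x = ENNReal.ofReal (2 * x) := by
    intro x
    rw [ENNReal.ofReal_mul (by norm_num)]
    simp
  rw [h2, h2, ← ENNReal.ofReal_add (by positivity) (by positivity)]
  congr 1
  have p1 := parallelogram_law_with_norm ℝ v₁ w₁
  have p2 := parallelogram_law_with_norm ℝ v₂ w₂
  linear_combination 3 * p1 + 3 * p2

end Pool.Agent.W342.RCD
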